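import Pool.Agent.Helper13.FS.StageE

/-!
# The stage theorem for worlds (route A for MP_75608d_al)
-/

set_option autoImplicit false
set_option linter.unusedSectionVars false

namespace Pool.Agent.Helper13.FS

open Finset Pool.Agent.Helper35.MP

variable {n q : ℕ}

theorem TT_bw (a : ℕ → Equiv.Perm (Fin n)) (g : ℕ → Option (Fin q × Bool))
    (y : Fin q → Equiv.Perm (Fin n)) : ∀ N : ℕ,
    Pool.Agent.Helper4.FS.TT (Pool.Agent.Helper4.FS.prog a g) y 0 (2 * N) =
      bw N (fun j => a j) (fun j => (gl y).act (g j))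
  | 0 => rfl
  | N + 1 => by
    show Pool.Agent.Helper4.FS.act y (Pool.Agent.Helper4.FS.prog a g (0 + (2 * N + 1))) *
      (Pool.Agent.Helper4.FS.act y (Pool.Agent.Helper4.FS.prog a g (0 + 2 * N)) *
        Pool.Agent.Helper4.FS.TT (Pool.Agent.Helper4.FS.prog a g) y 0 (2 * N)) = _
    rw [TT_bw a g y N, Nat.zero_add, Nat.zero_add, Pool.Agent.Helper4.FS.prog_even, ← mul_assoc]
    show _ = (gl y).act (g N) * a N * bw N _ _
    congr 2
    unfold Pool.Agent.Helper4.FS.prog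
    have h2 : (2 * N + 1) % 2 ≠ 0 := by omega
    have h3 : (2 * N + 1) / 2 = N := by omega
    rw [if_neg h2, h3]
    rcases g N with _ | ⟨i, b⟩ <;> rfl

theorem pos_bw (a : ℕ → Equiv.Perm (Fin n)) (g : ℕ → Option (Fin q × Bool))
    (y : Fin q → Equiv.Perm (Fin n)) (N : ℕ) (x : Fin n) :
    Pool.Agent.Helper4.FS.pos (Pool.Agent.Helper4.FS.prog a g) y 0 x (2 * N) =
      bw N (fun j => a j) (fun j => (gl y).act (g j)) x := by
  unfold Pool.Agent.Helper4.FS.pos
  rw [TT_bw]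

theorem fx_eq {X : Type*} [Fintype X] [DecidableEq X] (P Q : Equiv.Perm X) :
    fx (Q⁻¹ * P) = (univ.filter fun x => P x = Q x).card := by
  unfold fx
  congr 1
  ext x
  simp only [mem_filter, mem_univ, true_and]
  rw [Equiv.Perm.mul_apply, Equiv.Perm.inv_eq_iff_eq]

/-- the number of points on which the two products agree -/
theorem fx_bw (a b : ℕ → Equiv.Perm (Fin n)) (g : ℕ → Option (Fin q × Bool))
    (y : Fin q → Equiv.Perm (Fin n)) (N : ℕ) :
    fx ((bw N (fun j => b j) (fun j => (gl y).act (g j)))⁻¹ *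
      bw N (fun j => a j) (fun j => (gl y).act (g j))) =
    (univ.filter fun x => Pool.Agent.Helper4.FS.pos (Pool.Agent.Helper4.FS.prog a g) y 0 x (2 * N) =
      Pool.Agent.Helper4.FS.pos (Pool.Agent.Helper4.FS.prog b g) y 0 x (2 * N)).card := by
  rw [fx_eq]
  congr 1
  ext x
  simp only [mem_filter, mem_univ, true_and]
  rw [pos_bw, pos_bw]

variable {ι : Type*} [Fintype ι] [DecidableEq ι]

/-- the law of a block of `t0` lazy steps -/
noncomputable def lz0 (z : ι → Equiv.Perm (Fin n)) (t0 : ℕ) : Equiv.Perm (Fin n) → ℝ :=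
  law (gl z) (lwt ι (1 / 2)) t0

/-- the closing sum of the pattern `g` in the world `y` -/
noncomputable def clo (μ : Equiv.Perm (Fin n) → ℝ) (m : ℕ) {N : ℕ}
    (g : Fin N → Option (Fin q × Bool)) (y : Fin q → Equiv.Perm (Fin n)) : ℝ :=
  ∑ A : Fin N → Equiv.Perm (Fin n), ∑ B : Fin N → Equiv.Perm (Fin n),
    (∏ j, μ (A j)) * (∏ j, μ (B j)) *
      ((fx ((bw N B fun j => (gl y).act (g j))⁻¹ *
        bw N A fun j => (gl y).act (g j))).descFactorial m : ℝ)

/-- `RR` of the block schedule as an average over patterns -/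
theorem sum_RR_world (z : ι → Equiv.Perm (Fin n)) (y : Fin q → Equiv.Perm (Fin n)) (m t0 N : ℕ)
    (BadP : (Fin N → Option (Fin q × Bool)) → Prop) [DecidablePred BadP] :
    ∑ x, RR (tup (gl (Sum.elim z y)) m) (sch t0 N (Zw ι q) (Yw ι q)) (JJ t0 N)
      (fun ls => BadP fun j => φ (ls (sl t0 N j))) x =
    ∑ g : Fin N → Option (Fin q × Bool), (∏ j, lwt (Fin q) (1 / 32) (g j)) *
      (if ¬ BadP g then clo (lz0 z t0) m g y else 0) := by
  rw [sum_RR_tup]
  have h1 : ∀ a b : Fin ((t0 + 1) * N) → Option ((ι ⊕ Fin q) × Bool),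
      (if ¬ (BadP fun j => φ (a (sl t0 N j))) then w2 (sch t0 N (Zw ι q) (Yw ι q)) (JJ t0 N) a b *
        ((fx ((wd (gl (Sum.elim z y)) _ b)⁻¹ * wd (gl (Sum.elim z y)) _ a)).descFactorial m : ℝ)
        else 0) = w2 (sch t0 N (Zw ι q) (Yw ι q)) (JJ t0 N) a b *
        (fun (g : Fin N → Option ((ι ⊕ Fin q) × Bool)) (P Q : Equiv.Perm (Fin n)) =>
          if ¬ (BadP fun j => φ (g j)) then ((fx (Q⁻¹ * P)).descFactorial m : ℝ) else 0)
          (fun j => a (sl t0 N j)) (wd (gl (Sum.elim z y)) _ a) (wd (gl (Sum.elim z y)) _ b) := by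
    intro a b
    simp only [mul_ite, mul_zero]
  simp only [h1]
  rw [sum_blocks (gl (Sum.elim z y)) (Zw ι q) (Yw ι q) t0 N
    (fun (g : Fin N → Option ((ι ⊕ Fin q) × Bool)) (P Q : Equiv.Perm (Fin n)) =>
          if ¬ (BadP fun j => φ (g j)) then ((fx (Q⁻¹ * P)).descFactorial m : ℝ) else 0)]
  rw [sum_push (ψ (ι := ι)) ψ_inj (fun _ => Yw ι q) (fun _ => Yw_zero)]
  apply sum_congr rfl
  intro g _
  simp only [Yw_ψ, φψ, act_ψ]
  congr 1
  have h2 : law (gl (Sum.elim z y)) (Zw ι q) t0 = lz0 z t0 := by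
    funext p
    rw [law_push (gl (Sum.elim z y)) (gl z) χ χ_inj (act_χ z y) (Zw ι q) Zw_zero]
    unfold lz0
    congr 1
    funext l
    exact Zw_χ l
  rw [h2]
  by_cases hB : BadP g
  · simp [hB]
  · simp only [hB, not_false_eq_true, if_true]
    rfl

theorem clo_nn (μ : Equiv.Perm (Fin n) → ℝ) (hμ : ∀ p, 0 ≤ μ p) (m : ℕ) {N : ℕ}
    (g : Fin N → Option (Fin q × Bool)) (y : Fin q → Equiv.Perm (Fin n)) : 0 ≤ clo μ m g y := by
  unfold clo
  apply sum_nonneg
  intro A _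
  apply sum_nonneg
  intro B _
  exact mul_nonneg (mul_nonneg (prod_nonneg fun j _ => hμ _) (prod_nonneg fun j _ => hμ _))
    (Nat.cast_nonneg _)

theorem lwt_nn (ι : Type*) [Fintype ι] {θ : ℝ} (h0 : 0 ≤ θ) (h1 : θ ≤ 1)
    (o : Option (ι × Bool)) : 0 ≤ lwt ι θ o := by
  rcases o with _ | l
  · exact h0
  · exact div_nonneg (by linarith) (by positivity)

theorem lwt_sum (ι : Type*) [Fintype ι] [DecidableEq ι] [Nonempty ι] {θ : ℝ} (h0 : 0 ≤ θ)
    (h1 : θ ≤ 1) : ∑ o, lwt ι θ o = 1 :=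
  (lwt_Wt (fun _ : ι => (1 : Equiv.Perm (Fin 1))) h0 h1).one

/-- comparison of the schedule with the walk -/
theorem sch_le [Nonempty ι] (hq : 0 < q) (t0 N : ℕ) (k : Fin ((t0 + 1) * N))
    (l : Option ((ι ⊕ Fin q) × Bool)) (hl : l ≠ none) :
    sch t0 N (Zw ι q) (Yw ι q) k l ≤
      (2 * (Fintype.card ι + q) : ℝ) * lwt (ι ⊕ Fin q) (1 / 2) l := by
  have hι : (1 : ℝ) ≤ Fintype.card ι := by exact_mod_cast Fintype.card_pos
  have hq' : (1 : ℝ) ≤ q := by exact_mod_cast hq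
  rcases l with _ | l
  · exact absurd rfl hl
  · have h1 : (2 * (Fintype.card ι + q) : ℝ) * lwt (ι ⊕ Fin q) (1 / 2) (some l) = 1 / 2 := by
      show (2 * (Fintype.card ι + q) : ℝ) * ((1 - 1 / 2) / (2 * Fintype.card (ι ⊕ Fin q))) = 1 / 2
      rw [Fintype.card_sum, Fintype.card_fin]
      push_cast
      have : (0 : ℝ) < Fintype.card ι + q := by linarith
      field_simp
      norm_num
    rw [h1]
    have h2 : ∀ l : (ι ⊕ Fin q) × Bool, Zw ι q (some l) ≤ 1 / 2 := by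
      rintro ⟨i | c, b⟩
      · show (1 - 1 / 2 : ℝ) / (2 * Fintype.card ι) ≤ 1 / 2
        rw [div_le_iff₀ (by linarith)]
        linarith
      · show (0 : ℝ) ≤ 1 / 2
        norm_num
    have h3 : ∀ l : (ι ⊕ Fin q) × Bool, Yw ι q (some l) ≤ 1 / 2 := by
      rintro ⟨i | c, b⟩
      · show (0 : ℝ) ≤ 1 / 2
        norm_num
      · show (1 - 1 / 32 : ℝ) / (2 * q) ≤ 1 / 2
        rw [div_le_iff₀ (by linarith)]
        linarith
    unfold sch
    split_ifs
    · exact h3 l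
    · exact h2 l

theorem card_JJ (t0 N : ℕ) : (univ.filter fun k => JJ t0 N k = true).card = N := by
  have h : (univ.filter fun k => JJ t0 N k = true) = univ.image (sl t0 N) := by
    ext k
    simp only [mem_filter, mem_univ, true_and, mem_image]
    constructor
    · intro hk
      have hk' : (k : ℕ) % (t0 + 1) = t0 := of_decide_eq_true hk
      have h1 : (k : ℕ) / (t0 + 1) < N := Nat.div_lt_of_lt_mul k.2
      refine ⟨⟨(k : ℕ) / (t0 + 1), h1⟩, ?_⟩
      ext
      show (t0 + 1) * ((k : ℕ) / (t0 + 1)) + t0 = k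
      conv_rhs => rw [← Nat.div_add_mod (k : ℕ) (t0 + 1), hk']
    · rintro ⟨j, rfl⟩
      exact JJ_sl t0 N j
  rw [h, card_image_of_injective _ (sl_inj t0 N), card_univ, Fintype.card_fin]

/-- the weight of the bad letter sequences -/
theorem bad_weight [Nonempty ι] (z : ι → Equiv.Perm (Fin n)) (y : Fin q → Equiv.Perm (Fin n))
    (hq : 0 < q) (t0 N : ℕ)
    (BadP : (Fin N → Option (Fin q × Bool)) → Prop) [DecidablePred BadP] :
    ∑ ls : Fin ((t0 + 1) * N) → Option ((ι ⊕ Fin q) × Bool) with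
      BadP (fun j => φ (ls (sl t0 N j))), ∏ k, sch t0 N (Zw ι q) (Yw ι q) k (ls k) =
    ∑ g : Fin N → Option (Fin q × Bool) with BadP g, ∏ j, lwt (Fin q) (1 / 32) (g j) := by
  have h1 := Pool.Agent.Helper35.FS.marginal (sch t0 N (Zw ι q) (Yw ι q))
    (fun k => (sch_Wt (Zw_Wt z y) (Yw_Wt z y hq) t0 N k).one) (sl t0 N) (sl_inj t0 N)
    (φ (ι := ι) (q := q)) (fun g => if BadP g then 1 else 0)
  simp only [mul_ite, mul_one, mul_zero] at h1
  rw [sum_filter, sum_filter, h1]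
  apply sum_congr rfl
  intro g _
  have h2 : ∀ j, ∑ l with φ l = g j, sch t0 N (Zw ι q) (Yw ι q) (sl t0 N j) l =
      lwt (Fin q) (1 / 32) (g j) := by
    intro j
    rw [sch_sl, ← Yw_ψ (ι := ι) (g j)]
    rw [sum_eq_single_of_mem (ψ (g j))]
    · rw [mem_filter]
      exact ⟨mem_univ _, φψ _⟩
    · intro l hl hne
      rw [mem_filter] at hl
      apply Yw_zero
      rintro ⟨o, rfl⟩
      rw [φψ] at hl
      rw [hl.2] at hne
      exact hne rfl
  simp only [h2]

/-- **the stage theorem for worlds** -/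
theorem stage_world [Nonempty ι] (z : ι → Equiv.Perm (Fin n)) (hq : 0 < q) (m t0 N : ℕ)
    (BadP : (Fin N → Option (Fin q × Bool)) → Prop) [DecidablePred BadP] {r b η δ ρ : ℝ} (t : ℕ)
    (hδ : 0 < δ) (hρ : 0 < ρ)
    (hg : ∀ g, ¬ BadP g → ∑ y : Fin q → Equiv.Perm (Fin n), clo (lz0 z t0) m g y ≤
      r * Fintype.card (Fin m ↪ Fin n) * Fintype.card (Fin q → Equiv.Perm (Fin n)))
    (hb : ∑ g : Fin N → Option (Fin q × Bool) with BadP g, ∏ j, lwt (Fin q) (1 / 32) (g j) ≤ b)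
    (hr : 0 ≤ r)
    (h1 : (Fintype.card (Option ((ι ⊕ Fin q) × Bool)) : ℝ) ^ t * Real.sqrt ρ <
      1 / 2 * Real.exp (-(2 * (4 * (1 + 1 / (1 / 32)) * (((t0 + 1) * N : ℕ) *
        ((2 * (Fintype.card ι + q)) * (η / (1 / 32)))) + 1))))
    (h2 : b ≤ Real.exp (-(4 * (4 * (1 + 1 / (1 / 32)) * (N *
        ((2 * (Fintype.card ι + q)) * (η / (1 / 32)))) + 2)))) :
    ((univ.filter fun y : Fin q → Equiv.Perm (Fin n) =>
      (Real.exp (-(η * t)) + 4 * t * Real.exp (η * t) * (r / δ / ρ)) *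
        Fintype.card (Fin m ↪ Fin n) <
      ∑ x, ret (tup (gl (Sum.elim z y)) m) (lwt (ι ⊕ Fin q) (1 / 2)) t x).card : ℝ) ≤
      δ * Fintype.card (Fin q → Equiv.Perm (Fin n)) := by
  classical
  have : Nonempty (Fin q) := ⟨⟨0, hq⟩⟩
  have : Nonempty (ι ⊕ Fin q) := ⟨Sum.inr ⟨0, hq⟩⟩
  obtain ⟨W, hW⟩ : ∃ W : ℝ, W = Fintype.card (Fin q → Equiv.Perm (Fin n)) := ⟨_, rfl⟩
  obtain ⟨C, hC⟩ : ∃ C : ℝ, C = Fintype.card (Fin m ↪ Fin n) := ⟨_, rfl⟩
  rw [← hW, ← hC] at hg
  rw [← hW, ← hC]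
  have hC0 : 0 ≤ C := by rw [hC]; positivity
  obtain ⟨RT, hRT⟩ : ∃ RT : (Fin q → Equiv.Perm (Fin n)) → ℝ, RT = fun y =>
    ∑ x, RR (tup (gl (Sum.elim z y)) m) (sch t0 N (Zw ι q) (Yw ι q)) (JJ t0 N)
      (fun ls => BadP fun j => φ (ls (sl t0 N j))) x := ⟨_, rfl⟩
  have hμ : ∀ p, 0 ≤ lz0 z t0 p := fun p =>
    law_nn (gl z) (lwt_Wt z (by norm_num) (by norm_num)) t0 p
  have hRT1 : ∀ y, RT y = ∑ g : Fin N → Option (Fin q × Bool), (∏ j, lwt (Fin q) (1 / 32) (g j)) *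
      (if ¬ BadP g then clo (lz0 z t0) m g y else 0) := by
    intro y
    rw [hRT]
    exact sum_RR_world z y m t0 N BadP
  have hlw : ∀ g : Fin N → Option (Fin q × Bool), 0 ≤ ∏ j, lwt (Fin q) (1 / 32) (g j) :=
    fun g => prod_nonneg fun j _ => lwt_nn _ (by norm_num) (by norm_num) _
  have hRT0 : ∀ y, 0 ≤ RT y := by
    intro y
    rw [hRT1]
    apply sum_nonneg
    intro g _
    apply mul_nonneg (hlw g)
    by_cases hB : BadP g
    · simp [hB]
    · simp only [hB, not_false_eq_true, if_true]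
      exact clo_nn _ hμ _ _ _
  have hsum : ∑ y, RT y ≤ r * C * W := by
    simp only [hRT1]
    rw [sum_comm]
    calc ∑ g : Fin N → Option (Fin q × Bool), ∑ y : Fin q → Equiv.Perm (Fin n),
          (∏ j, lwt (Fin q) (1 / 32) (g j)) * (if ¬ BadP g then clo (lz0 z t0) m g y else 0) ≤
        ∑ g : Fin N → Option (Fin q × Bool), (∏ j, lwt (Fin q) (1 / 32) (g j)) * (r * C * W) := by
          apply sum_le_sum
          intro g _
          rw [← mul_sum]
          apply mul_le_mul_of_nonneg_left _ (hlw g)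
          by_cases hB : BadP g
          · simp only [hB, not_true_eq_false, if_false, sum_const_zero]
            have : 0 ≤ W := by rw [hW]; positivity
            positivity
          · simp only [hB, not_false_eq_true, if_true]
            exact hg g hB
      _ = r * C * W := by
          rw [← sum_mul, ← Fintype.prod_sum fun (_ : Fin N) o => lwt (Fin q) (1 / 32) o]
          rw [prod_eq_one fun j _ => lwt_sum (Fin q) (by norm_num) (by norm_num), one_mul]
  -- the good worlds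
  have hgood : ∀ y, RT y ≤ r / δ * C →
      ∑ x, ret (tup (gl (Sum.elim z y)) m) (lwt (ι ⊕ Fin q) (1 / 2)) t x ≤
      (Real.exp (-(η * t)) + 4 * t * Real.exp (η * t) * (r / δ / ρ)) * C := by
    intro y hy
    have hS0 : Wt (gl (Sum.elim z y)) (1 / 32) (lwt (ι ⊕ Fin q) (1 / 2)) := by
      have h3 := lwt_Wt (Sum.elim z y) (θ := 1 / 2) (by norm_num) (by norm_num)
      exact ⟨h3.nn, h3.one, h3.sym, le_trans (by norm_num) h3.lazy⟩
    rw [hRT] at hy
    rw [hC] at hy ⊢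
    refine stage (tup (gl (Sum.elim z y)) m) (by norm_num) (lwt (ι ⊕ Fin q) (1 / 2))
      (Wt_tup _ m hS0) (sch t0 N (Zw ι q) (Yw ι q))
      (fun k => Wt_tup _ m (sch_Wt (Zw_Wt z y) (Yw_Wt z y hq) t0 N k)) (by positivity)
      (fun k l hl => sch_le hq t0 N k l hl) (JJ t0 N)
      (fun ls => BadP fun j => φ (ls (sl t0 N j))) ?_ t hρ hy h1 ?_
    · intro ls ls' hls
      have : (fun j => φ (ls (sl t0 N j))) = fun j => φ (ls' (sl t0 N j)) := by
        funext j
        rw [hls _ (JJ_sl t0 N j)]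
      rw [this]
    · rw [card_JJ, bad_weight z y hq t0 N BadP]
      exact hb.trans h2
  -- Markov
  obtain ⟨V, hV⟩ : ∃ V : Finset (Fin q → Equiv.Perm (Fin n)), V = univ.filter fun y =>
      (Real.exp (-(η * t)) + 4 * t * Real.exp (η * t) * (r / δ / ρ)) * C <
      ∑ x, ret (tup (gl (Sum.elim z y)) m) (lwt (ι ⊕ Fin q) (1 / 2)) t x := ⟨_, rfl⟩
  rw [← hV]
  have hVmem : ∀ y ∈ V, r / δ * C < RT y := by
    intro y hy
    rw [hV, mem_filter] at hy
    by_contra hcon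
    push Not at hcon
    exact absurd (hgood y hcon) (not_le.2 hy.2)
  by_cases hVe : V = ∅
  · rw [hVe, card_empty, Nat.cast_zero]
    have : 0 ≤ W := by rw [hW]; positivity
    positivity
  have hne : V.Nonempty := nonempty_iff_ne_empty.2 hVe
  have h3 : (V.card : ℝ) * (r / δ * C) < r * C * W := by
    calc (V.card : ℝ) * (r / δ * C) = ∑ _y ∈ V, r / δ * C := by rw [sum_const, nsmul_eq_mul]
      _ < ∑ y ∈ V, RT y := sum_lt_sum_of_nonempty hne hVmem
      _ ≤ ∑ y, RT y := sum_le_univ_sum_of_nonneg hRT0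
      _ ≤ r * C * W := hsum
  have h4 : 0 < r * C := by
    by_contra hcon
    push Not at hcon
    have h5 : r * C = 0 := le_antisymm hcon (mul_nonneg hr hC0)
    have h6 : r / δ * C = 0 := by
      rw [div_mul_eq_mul_div, h5, zero_div]
    rw [h5, h6, mul_zero, zero_mul] at h3
    exact lt_irrefl _ h3
  have h5 : (V.card : ℝ) * (r / δ * C) = (r * C) * (V.card / δ) := by
    field_simp
  rw [h5] at h3
  have h6 := lt_of_mul_lt_mul_left h3 h4.le
  rw [div_lt_iff₀ hδ] at h6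
  linarith

end Pool.Agent.Helper13.FS
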