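import Pool.Agent.Helper13.FS.StageI
import Pool.Agent.Helper38.FS.Defs

/-!
# Return probabilities of tuples in terms of the lazy law, worlds of even permutations
-/

set_option autoImplicit false
set_option linter.unusedSectionVars false

namespace Pool.Agent.Helper13.FS

open Finset Pool.Agent.Helper35.MP
open Pool.Agent.Helper3.AK (Alt lazyLaw)
open Pool.Agent.Helper38.FS (up rp)

section law

variable {X Lam : Type*} [Fintype X] [DecidableEq X] [Fintype Lam] [DecidableEq Lam]

/-- the first letter -/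
theorem law_succ (L : Letters X Lam) (S : Lam → ℝ) (t : ℕ) (g : Equiv.Perm X) :
    law L S (t + 1) g = ∑ l, S l * law L S t (g * (L.act l)⁻¹) := by
  unfold law
  rw [sum_succ]
  apply sum_congr rfl
  intro l _
  rw [mul_sum]
  apply sum_congr rfl
  intro ls _
  rw [Fin.prod_univ_succ]
  have h1 : wd L (t + 1) (Fin.cons l ls) = wd L t ls * L.act l := rfl
  rw [h1]
  simp only [Fin.cons_zero, Fin.cons_succ]
  by_cases h : wd L t ls * L.act l = g
  · rw [if_pos h, if_pos (eq_mul_inv_of_mul_eq h)]
  · rw [if_neg h, if_neg fun h' => h (by rw [h', inv_mul_cancel_right]), mul_zero]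

/-- the last letter -/
theorem law_succ' (L : Letters X Lam) (S : Lam → ℝ) (t : ℕ) (g : Equiv.Perm X) :
    law L S (t + 1) g = ∑ l, S l * law L S t ((L.act l)⁻¹ * g) := by
  unfold law
  rw [sum_snoc', sum_comm]
  apply sum_congr rfl
  intro l _
  rw [mul_sum]
  apply sum_congr rfl
  intro ls _
  rw [Fin.prod_univ_castSucc, wd_last]
  simp only [Fin.snoc_last, Fin.snoc_castSucc]
  by_cases h : L.act l * wd L t ls = g
  · rw [if_pos h, if_pos (eq_inv_mul_of_mul_eq h), mul_comm]
  · rw [if_neg h, if_neg fun h' => h (by rw [h', mul_inv_cancel_left]), mul_zero]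

theorem law_zero (L : Letters X Lam) (S : Lam → ℝ) (g : Equiv.Perm X) :
    law L S 0 g = if g = 1 then 1 else 0 := by
  unfold law
  rw [sum_fin0]
  show (if (1 : Equiv.Perm X) = g then ∏ k : Fin 0, _ else 0) = _
  rw [Finset.univ_eq_empty (α := Fin 0), prod_empty]
  by_cases h : g = 1
  · rw [if_pos h, if_pos h.symm]
  · rw [if_neg h, if_neg fun h' => h h'.symm]

theorem law_inv (L : Letters X Lam) {θ : ℝ} {S : Lam → ℝ} (hS : Wt L θ S) : ∀ (t : ℕ)
    (g : Equiv.Perm X), law L S t g⁻¹ = law L S t g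
  | 0, g => by
    rw [law_zero, law_zero]
    by_cases h : g = 1
    · rw [if_pos h, if_pos (by rw [h, inv_one])]
    · rw [if_neg h, if_neg fun h' => h (inv_eq_one.1 h')]
  | t + 1, g => by
    rw [law_succ, law_succ']
    have h1 : ∀ l, S l * law L S t (g⁻¹ * (L.act l)⁻¹) =
        S (L.inv l) * law L S t ((L.act (L.inv l))⁻¹ * g) := by
      intro l
      rw [hS.sym, L.act_inv, inv_inv, ← mul_inv_rev, law_inv L hS t]
    rw [sum_congr rfl fun l _ => h1 l]
    exact Equiv.sum_comp (Function.Involutive.toPerm L.inv L.inv_inv)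
      (fun l => S l * law L S t ((L.act l)⁻¹ * g))

theorem law_add (L : Letters X Lam) (S : Lam → ℝ) (M M' : ℕ) (F : Equiv.Perm X → ℝ) :
    ∑ g, law L S (M + M') g * F g = ∑ g, law L S M g * ∑ h, law L S M' h * F (h * g) := by
  rw [sum_law, sum_append, sum_law L S M fun g => ∑ h, law L S M' h * F (h * g)]
  apply sum_congr rfl
  intro a _
  rw [sum_law L S M' fun h => F (h * wd L M a), mul_sum]
  apply sum_congr rfl
  intro b _
  rw [Fin.prod_univ_add, wd_add]
  simp only [Fin.append_left, Fin.append_right]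
  ring

/-- the sum of the return probabilities of tuples in terms of the law of `2 t` letters -/
theorem sum_ret_law (L : Letters X Lam) {θ : ℝ} {S : Lam → ℝ} (hS : Wt L θ S) (m t : ℕ) :
    ∑ x, ret (tup L m) S t x = ∑ g, law L S (2 * t) g * ((fx g).descFactorial m : ℝ) := by
  rw [two_mul, law_add, sum_ret_tup,
    sum_law L S t fun g => ∑ h, law L S t h * ((fx (h * g)).descFactorial m : ℝ)]
  apply sum_congr rfl
  intro a _
  have h1 : ∑ h, law L S t h * ((fx (h * wd L t a)).descFactorial m : ℝ) =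
      ∑ h, law L S t h * ((fx (h⁻¹ * wd L t a)).descFactorial m : ℝ) := by
    rw [← Equiv.sum_comp (Equiv.inv (Equiv.Perm X))]
    apply sum_congr rfl
    intro h _
    show law L S t h⁻¹ * _ = _
    rw [law_inv L hS t h]
    rfl
  rw [h1, sum_law L S t fun h => ((fx (h⁻¹ * wd L t a)).descFactorial m : ℝ), mul_sum]
  apply sum_congr rfl
  intro b _
  ring

end law

section lazy

variable {n k q : ℕ}

/-- the law of `t` lazy steps -/
theorem lz0_eq (z : Fin k → Alt n) : ∀ (t : ℕ) (g : Equiv.Perm (Fin n)),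
    lz0 (up z) t g = lazyLaw z t g
  | 0, g => by
    unfold lz0
    rw [law_zero]
    rfl
  | t + 1, g => by
    unfold lz0
    rw [law_succ, Fintype.sum_option, Fintype.sum_prod_type]
    have ih : ∀ h, law (gl (up z)) (lwt (Fin k) (1 / 2)) t h = lazyLaw z t h := lz0_eq z t
    show (1 / 2 : ℝ) * law (gl (up z)) (lwt (Fin k) (1 / 2)) t (g * (1 : Equiv.Perm (Fin n))⁻¹) +
      ∑ i, ∑ b, (1 - 1 / 2) / (2 * (Fintype.card (Fin k) : ℝ)) *
        law (gl (up z)) (lwt (Fin k) (1 / 2)) t (g * ((gl (up z)).act (some (i, b)))⁻¹) =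
      (1 / 2) * lazyLaw z t g + (4 * (k : ℝ))⁻¹ *
        ∑ i, (lazyLaw z t (g * (z i : Equiv.Perm (Fin n))⁻¹) +
          lazyLaw z t (g * (z i : Equiv.Perm (Fin n))))
    simp only [ih, inv_one, mul_one]
    congr 1
    rw [mul_sum]
    apply sum_congr rfl
    intro i _
    rw [Fintype.sum_bool, Fintype.card_fin]
    have h1 : (gl (up z)).act (some (i, true)) = (z i : Equiv.Perm (Fin n)) := rfl
    have h2 : (gl (up z)).act (some (i, false)) = (z i : Equiv.Perm (Fin n))⁻¹ := rfl
    rw [h1, h2, inv_inv]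
    have h3 : (1 - 1 / 2 : ℝ) / (2 * k) = (4 * (k : ℝ))⁻¹ := by
      rw [← one_div]
      by_cases hk : (k : ℝ) = 0
      · rw [hk]
        simp
      · field_simp
        norm_num
    rw [h3]
    ring

/-- the letters of the joined tuple -/
def jn {k q : ℕ} (o : Option ((Fin k ⊕ Fin q) × Bool)) : Option (Fin (k + q) × Bool) :=
  o.map fun l => (finSumFinEquiv l.1, l.2)

theorem jn_bij : Function.Bijective (jn (k := k) (q := q)) := by
  constructor
  · intro a b h
    rcases a with _ | ⟨i, b1⟩
    · rcases b with _ | ⟨j, b2⟩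
      · rfl
      · cases h
    · rcases b with _ | ⟨j, b2⟩
      · cases h
      · simp only [jn, Option.map_some, Option.some.injEq, Prod.mk.injEq,
          EmbeddingLike.apply_eq_iff_eq] at h
        rw [h.1, h.2]
  · intro o
    rcases o with _ | ⟨i, b⟩
    · exact ⟨none, rfl⟩
    · refine ⟨some (finSumFinEquiv.symm i, b), ?_⟩
      simp [jn]

theorem law_join (z : Fin k → Alt n) (y : Fin q → Alt n) (t : ℕ) (g : Equiv.Perm (Fin n)) :
    law (gl (Sum.elim (up z) (up y))) (lwt (Fin k ⊕ Fin q) (1 / 2)) t g =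
      lazyLaw (Fin.append z y) t g := by
  rw [← lz0_eq]
  unfold lz0
  rw [law_push (gl (up (Fin.append z y))) (gl (Sum.elim (up z) (up y))) jn jn_bij.1 ?_
    (lwt (Fin (k + q)) (1 / 2)) (fun l hl => absurd (jn_bij.2 l) hl)]
  · congr 1
    funext l
    rcases l with _ | l
    · rfl
    · show (1 - 1 / 2 : ℝ) / (2 * Fintype.card (Fin k ⊕ Fin q)) =
        (1 - 1 / 2) / (2 * Fintype.card (Fin (k + q)))
      rw [Fintype.card_sum, Fintype.card_fin, Fintype.card_fin, Fintype.card_fin]
  · intro l
    rcases l with _ | ⟨i | c, b⟩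
    · rfl
    · show gact (up (Fin.append z y)) (some (finSumFinEquiv (Sum.inl i), b)) = _
      unfold gact
      simp only [finSumFinEquiv_apply_left]
      unfold up
      rw [Fin.append_left]
      rfl
    · show gact (up (Fin.append z y)) (some (finSumFinEquiv (Sum.inr c), b)) = _
      unfold gact
      simp only [finSumFinEquiv_apply_right]
      unfold up
      rw [Fin.append_right]
      rfl

/-- the average return probability of tuples for the joined generators -/
theorem ret_rp (hk : 0 < k) (z : Fin k → Alt n) (y : Fin q → Alt n) (m t : ℕ) :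
    ∑ x, ret (tup (gl (Sum.elim (up z) (up y))) m) (lwt (Fin k ⊕ Fin q) (1 / 2)) t x =
      rp (Fin.append z y) (2 * t) m * Fintype.card (Fin m ↪ Fin n) := by
  have : Nonempty (Fin k ⊕ Fin q) := ⟨Sum.inl ⟨0, hk⟩⟩
  rw [sum_ret_law _ (lwt_Wt _ (θ := 1 / 2) (by norm_num) (by norm_num)), card_tup,
    Fintype.card_fin]
  unfold rp
  rw [sum_mul]
  apply sum_congr rfl
  intro g _
  rw [law_join]
  show lazyLaw (Fin.append z y) (2 * t) g * ((fx g).descFactorial m : ℝ) =
    lazyLaw (Fin.append z y) (2 * t) g * (((fx g).descFactorial m : ℝ) / (n.descFactorial m : ℝ)) *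
      (n.descFactorial m : ℝ)
  by_cases h : (n.descFactorial m : ℝ) = 0
  · have h1 : ((fx g).descFactorial m : ℝ) = 0 := by
      have h2 : n.descFactorial m = 0 := by exact_mod_cast h
      rw [Nat.descFactorial_eq_zero_iff_lt] at h2
      have h3 : fx g ≤ n := by
        unfold fx
        refine (card_filter_le _ _).trans ?_
        rw [card_univ, Fintype.card_fin]
      exact_mod_cast (Nat.descFactorial_eq_zero_iff_lt.2 (by omega))
    rw [h1, h]
    simp
  · rw [mul_assoc, div_mul_cancel₀ _ h]

/-- the average return probability of tuples for the old generators -/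
theorem ret_rp_old (hk : 0 < k) (z : Fin k → Alt n) (m t : ℕ) :
    ∑ x, ret (tup (gl (up z)) m) (lwt (Fin k) (1 / 2)) t x =
      rp z (2 * t) m * Fintype.card (Fin m ↪ Fin n) := by
  have : Nonempty (Fin k) := ⟨⟨0, hk⟩⟩
  rw [sum_ret_law _ (lwt_Wt _ (θ := 1 / 2) (by norm_num) (by norm_num)), card_tup,
    Fintype.card_fin]
  unfold rp
  rw [sum_mul]
  apply sum_congr rfl
  intro g _
  have h0 : law (gl (up z)) (lwt (Fin k) (1 / 2)) (2 * t) g = lazyLaw z (2 * t) g :=
    lz0_eq z (2 * t) g
  rw [h0]
  show lazyLaw z (2 * t) g * ((fx g).descFactorial m : ℝ) =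
    lazyLaw z (2 * t) g * (((fx g).descFactorial m : ℝ) / (n.descFactorial m : ℝ)) *
      (n.descFactorial m : ℝ)
  by_cases h : (n.descFactorial m : ℝ) = 0
  · have h1 : ((fx g).descFactorial m : ℝ) = 0 := by
      have h2 : n.descFactorial m = 0 := by exact_mod_cast h
      rw [Nat.descFactorial_eq_zero_iff_lt] at h2
      have h3 : fx g ≤ n := by
        unfold fx
        refine (card_filter_le _ _).trans ?_
        rw [card_univ, Fintype.card_fin]
      exact_mod_cast (Nat.descFactorial_eq_zero_iff_lt.2 (by omega))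
    rw [h1, h]
    simp
  · rw [mul_assoc, div_mul_cancel₀ _ h]

/-- the number of worlds -/
theorem card_worlds (hn : 2 ≤ n) : Fintype.card (Fin q → Equiv.Perm (Fin n)) =
    2 ^ q * Fintype.card (Fin q → Alt n) := by
  have : Nontrivial (Fin n) := Fin.nontrivial_iff_two_le.2 hn
  rw [Fintype.card_fun, Fintype.card_fun, Fintype.card_fin, ← mul_pow,
    ← two_mul_card_alternatingGroup (α := Fin n)]

open Classical in
/-- worlds of even permutations -/
theorem alt_worlds (hn : 2 ≤ n) (P : (Fin q → Equiv.Perm (Fin n)) → Prop) {δ : ℝ}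
    (h : ((univ.filter P).card : ℝ) ≤ δ * Fintype.card (Fin q → Equiv.Perm (Fin n))) :
    ((univ.filter fun y : Fin q → Alt n => P (up y)).card : ℝ) ≤
      2 ^ q * δ * Fintype.card (Fin q → Alt n) := by
  have h1 : (univ.filter fun y : Fin q → Alt n => P (up y)).card ≤ (univ.filter P).card := by
    apply card_le_card_of_injOn (fun y => up y)
    · intro y hy
      have hy' := (mem_filter.1 (mem_coe.1 hy)).2
      exact mem_coe.2 (mem_filter.2 ⟨mem_univ _, hy'⟩)
    · intro y _ y' _ hyy
      funext i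
      exact Subtype.ext (congrFun hyy i)
  calc ((univ.filter fun y : Fin q → Alt n => P (up y)).card : ℝ) ≤ ((univ.filter P).card : ℝ) := by
        exact_mod_cast h1
    _ ≤ _ := h
    _ = _ := by
        rw [card_worlds hn]
        push_cast
        ring

end lazy

end Pool.Agent.Helper13.FS
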