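import Pool.Agent.Helper13.FS.Rp
import Pool.Agent.Helper86.FS.StartDefs

/-!
# Pointwise return probabilities of tuples in terms of the lazy law
-/

set_option autoImplicit false
set_option linter.unusedSectionVars false

namespace Pool.Agent.Helper13.FS

open Finset Pool.Agent.Helper35.MP
open Pool.Agent.Helper3.AK (Alt lazyLaw)
open Pool.Agent.Helper38.FS (up rp)
open Pool.Agent.Helper86.FS (pT)

section law

variable {X Lam : Type*} [Fintype X] [DecidableEq X] [Fintype Lam] [DecidableEq Lam]

theorem embPerm_eq_iff {m : ℕ} (g : Equiv.Perm X) (y x : Fin m ↪ X) :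
    embPerm g y = x ↔ ∀ i, g (y i) = x i := by
  constructor
  · intro h i
    rw [← h]
    rfl
  · intro h
    ext i
    exact h i

/-- the kernel of tuples in terms of the law of the words -/
theorem hk_law (L : Letters X Lam) (S : Lam → ℝ) (m t : ℕ) (x y : Fin m ↪ X) :
    hk (tup L m) S t x y = ∑ g, law L S t g * (if embPerm g y = x then 1 else 0) := by
  rw [hk_words, sum_law L S t fun g => if embPerm g y = x then 1 else 0]
  apply sum_congr rfl
  intro ls _
  rw [pos_eq_wd, wd_tup]
  split_ifs
  · rw [mul_one]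
  · rw [mul_zero]

/-- the return probability of a tuple in terms of the law of `2 t` letters -/
theorem ret_law (L : Letters X Lam) {θ : ℝ} {S : Lam → ℝ} (hS : Wt L θ S) (m t : ℕ)
    (x : Fin m ↪ X) :
    ret (tup L m) S t x = ∑ g, law L S (2 * t) g * (if embPerm g x = x then 1 else 0) := by
  have h1 : ret (tup L m) S t x = ∑ g, law L S t g * hk (tup L m) S t x (embPerm g⁻¹ x) := by
    unfold ret
    have h2 : ∀ y, hk (tup L m) S t x y ^ 2 =
        ∑ g, law L S t g * (if embPerm g y = x then hk (tup L m) S t x y else 0) := by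
      intro y
      rw [pow_two]
      nth_rewrite 1 [hk_law L S m t x y]
      rw [sum_mul]
      apply sum_congr rfl
      intro g _
      rw [mul_assoc]
      congr 1
      split_ifs
      · rw [one_mul]
      · rw [zero_mul]
    simp only [h2]
    rw [sum_comm]
    apply sum_congr rfl
    intro g _
    rw [← mul_sum]
    congr 1
    rw [Fintype.sum_eq_single (embPerm g⁻¹ x)]
    · rw [if_pos]
      rw [← Equiv.Perm.mul_apply, ← embPerm_mul, mul_inv_cancel, embPerm_one]
      rfl
    · intro y hy
      rw [if_neg]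
      intro h
      apply hy
      rw [← h, ← Equiv.Perm.mul_apply, ← embPerm_mul, inv_mul_cancel, embPerm_one]
      rfl
  rw [h1, two_mul, law_add]
  rw [← Equiv.sum_comp (Equiv.inv (Equiv.Perm X))]
  apply sum_congr rfl
  intro g _
  show law L S t g⁻¹ * hk (tup L m) S t x (embPerm g⁻¹⁻¹ x) = _
  rw [law_inv L hS t g, inv_inv, hk_law]
  congr 1

end law

variable {n k : ℕ}

/-- the return probability of a tuple is the probability that the lazy walk fixes it -/
theorem ret_pT (hk : 0 < k) (z : Fin k → Alt n) (m t : ℕ) (x : Fin m ↪ Fin n) :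
    ret (tup (gl (up z)) m) (lwt (Fin k) (1 / 2)) t x = pT (lazyLaw z (2 * t)) x x := by
  have : Nonempty (Fin k) := ⟨⟨0, hk⟩⟩
  rw [ret_law _ (lwt_Wt _ (θ := 1 / 2) (by norm_num) (by norm_num))]
  unfold pT
  rw [sum_filter]
  apply sum_congr rfl
  intro g _
  have h0 : law (gl (up z)) (lwt (Fin k) (1 / 2)) (2 * t) g = lazyLaw z (2 * t) g :=
    lz0_eq z (2 * t) g
  rw [h0]
  by_cases h : embPerm g x = x
  · rw [if_pos h, if_pos ((embPerm_eq_iff g x x).1 h), mul_one]
  · rw [if_neg h, if_neg fun h' => h ((embPerm_eq_iff g x x).2 h'), mul_zero]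

end Pool.Agent.Helper13.FS
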