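import Pool.Agent.Helper13.FS.StageH
import Pool.Agent.Helper73.FS.StageG

/-!
# The stage theorem for worlds with a path event

Only pairs of paths in the event `GB` (start tuple, world, pattern, blocks) are counted; the
Metropolis mass of the complement of `GB` is at most `1 / 8`.
-/

set_option autoImplicit false
set_option linter.unusedSectionVars false

namespace Pool.Agent.Helper13.FS

open Finset Pool.Agent.Helper35.MP Pool.Agent.Helper73.FS

/-- the weights of the new letters, lazy weight `θ` -/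
noncomputable def Yv (ι : Type*) (q : ℕ) (θ : ℝ) : Option ((ι ⊕ Fin q) × Bool) → ℝ
  | none => θ
  | some (Sum.inl _, _) => 0
  | some (Sum.inr _, _) => (1 - θ) / (2 * q)

variable {n q : ℕ} {ι : Type*} [Fintype ι] [DecidableEq ι] {θ : ℝ}

theorem Yv_ψ (o : Option (Fin q × Bool)) : Yv ι q θ (ψ o) = lwt (Fin q) θ o := by
  rcases o with _ | ⟨i, b⟩
  · rfl
  · show (1 - θ) / (2 * q) = (1 - θ) / (2 * Fintype.card (Fin q))
    rw [Fintype.card_fin]

theorem Yv_zero (l : Option ((ι ⊕ Fin q) × Bool)) (h : l ∉ Set.range (ψ (ι := ι) (q := q))) :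
    Yv ι q θ l = 0 := by
  rcases l with _ | ⟨i | c, b⟩
  · exact absurd ⟨none, rfl⟩ h
  · rfl
  · exact absurd ⟨some (c, b), rfl⟩ h

theorem Yv_Wt (z : ι → Equiv.Perm (Fin n)) (y : Fin q → Equiv.Perm (Fin n)) (hq : 0 < q)
    (h0 : 0 < θ) (h1 : θ ≤ 1 / 2) : Wt (gl (Sum.elim z y)) θ (Yv ι q θ) where
  nn := by
    intro l
    rcases l with _ | ⟨i | c, b⟩
    · exact h0.le
    · exact le_rfl
    · exact div_nonneg (by linarith) (by positivity)
  one := by
    rw [sum_opt]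
    simp only [Yv, sum_const, card_univ, Fintype.card_bool, nsmul_eq_mul, Fintype.card_fin]
    have h2 : (q : ℝ) ≠ 0 := by positivity
    push_cast
    field_simp
    ring
  sym := by
    intro l
    rcases l with _ | ⟨i | c, b⟩ <;> rfl
  lazy := le_rfl

theorem Zv_Wt (z : ι → Equiv.Perm (Fin n)) (y : Fin q → Equiv.Perm (Fin n)) [Nonempty ι]
    (h1 : θ ≤ 1 / 2) : Wt (gl (Sum.elim z y)) θ (Zw ι q) :=
  ⟨(Zw_Wt z y).nn, (Zw_Wt z y).one, (Zw_Wt z y).sym, h1⟩

/-- comparison of the schedule with the walk -/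
theorem sch_leG [Nonempty ι] (hq : 0 < q) (h0 : 0 < θ) (t0 N : ℕ) (k : Fin ((t0 + 1) * N))
    (l : Option ((ι ⊕ Fin q) × Bool)) (hl : l ≠ none) :
    sch t0 N (Zw ι q) (Yv ι q θ) k l ≤
      (2 * (Fintype.card ι + q) : ℝ) * lwt (ι ⊕ Fin q) (1 / 2) l := by
  have hι : (1 : ℝ) ≤ Fintype.card ι := by exact_mod_cast Fintype.card_pos
  have hq' : (1 : ℝ) ≤ q := by exact_mod_cast hq
  rcases l with _ | l
  · exact absurd rfl hl
  · have h1 : (2 * (Fintype.card ι + q) : ℝ) * lwt (ι ⊕ Fin q) (1 / 2) (some l) = 1 / 2 := by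
      show (2 * (Fintype.card ι + q) : ℝ) * ((1 - 1 / 2) / (2 * Fintype.card (ι ⊕ Fin q))) = 1 / 2
      rw [Fintype.card_sum, Fintype.card_fin]
      push_cast
      have : (0 : ℝ) < Fintype.card ι + q := by linarith
      field_simp
      norm_num
    rw [h1]
    have h2 : ∀ l : (ι ⊕ Fin q) × Bool, Zw ι q (some l) ≤ 1 / 2 := by
      rintro ⟨i | c, b⟩
      · show (1 - 1 / 2 : ℝ) / (2 * Fintype.card ι) ≤ 1 / 2
        rw [div_le_iff₀ (by linarith)]
        linarith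
      · show (0 : ℝ) ≤ 1 / 2
        norm_num
    have h3 : ∀ l : (ι ⊕ Fin q) × Bool, Yv ι q θ (some l) ≤ 1 / 2 := by
      rintro ⟨i | c, b⟩
      · show (0 : ℝ) ≤ 1 / 2
        norm_num
      · show (1 - θ : ℝ) / (2 * q) ≤ 1 / 2
        rw [div_le_iff₀ (by linarith)]
        linarith
    unfold sch
    split_ifs
    · exact h3 l
    · exact h2 l

/-- the weight of the bad letter sequences -/
theorem bad_weightG [Nonempty ι] (z : ι → Equiv.Perm (Fin n)) (y : Fin q → Equiv.Perm (Fin n))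
    (hq : 0 < q) (h0 : 0 < θ) (h1 : θ ≤ 1 / 2) (t0 N : ℕ)
    (BadP : (Fin N → Option (Fin q × Bool)) → Prop) [DecidablePred BadP] :
    ∑ ls : Fin ((t0 + 1) * N) → Option ((ι ⊕ Fin q) × Bool) with
      BadP (fun j => φ (ls (sl t0 N j))), ∏ k, sch t0 N (Zw ι q) (Yv ι q θ) k (ls k) =
    ∑ g : Fin N → Option (Fin q × Bool) with BadP g, ∏ j, lwt (Fin q) θ (g j) := by
  have h3 := Pool.Agent.Helper35.FS.marginal (sch t0 N (Zw ι q) (Yv ι q θ))
    (fun k => (sch_Wt (Zv_Wt z y h1) (Yv_Wt z y hq h0 h1) t0 N k).one) (sl t0 N) (sl_inj t0 N)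
    (φ (ι := ι) (q := q)) (fun g => if BadP g then 1 else 0)
  simp only [mul_ite, mul_one, mul_zero] at h3
  rw [sum_filter, sum_filter, h3]
  apply sum_congr rfl
  intro g _
  have h2 : ∀ j, ∑ l with φ l = g j, sch t0 N (Zw ι q) (Yv ι q θ) (sl t0 N j) l =
      lwt (Fin q) θ (g j) := by
    intro j
    rw [sch_sl, ← Yv_ψ (ι := ι) (g j)]
    rw [sum_eq_single_of_mem (ψ (g j))]
    · rw [mem_filter]
      exact ⟨mem_univ _, φψ _⟩
    · intro l hl hne
      rw [mem_filter] at hl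
      apply Yv_zero
      rintro ⟨o, rfl⟩
      rw [φψ] at hl
      rw [hl.2] at hne
      exact hne rfl
  simp only [h2]

open Classical in
/-- the closing sum of the pattern `g` in the world `y`, for pairs of paths in `GB` -/
noncomputable def cloG (μ : Equiv.Perm (Fin n) → ℝ) (m : ℕ) {N : ℕ}
    (GB : (Fin m ↪ Fin n) → (Fin N → Option (Fin q × Bool)) → (Fin N → Equiv.Perm (Fin n)) → Prop)
    (g : Fin N → Option (Fin q × Bool)) (y : Fin q → Equiv.Perm (Fin n)) : ℝ :=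
  ∑ A : Fin N → Equiv.Perm (Fin n), ∑ B : Fin N → Equiv.Perm (Fin n),
    (∏ j, μ (A j)) * (∏ j, μ (B j)) *
      ((univ.filter fun x : Fin m ↪ Fin n => GB x g A ∧ GB x g B ∧
        ∀ i, bw N A (fun j => (gl y).act (g j)) (x i) =
          bw N B (fun j => (gl y).act (g j)) (x i)).card : ℝ)

theorem cloG_nn (μ : Equiv.Perm (Fin n) → ℝ) (hμ : ∀ p, 0 ≤ μ p) (m : ℕ) {N : ℕ}
    (GB : (Fin m ↪ Fin n) → (Fin N → Option (Fin q × Bool)) → (Fin N → Equiv.Perm (Fin n)) → Prop)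
    (g : Fin N → Option (Fin q × Bool)) (y : Fin q → Equiv.Perm (Fin n)) :
    0 ≤ cloG μ m GB g y := by
  unfold cloG
  apply sum_nonneg
  intro A _
  apply sum_nonneg
  intro B _
  exact mul_nonneg (mul_nonneg (prod_nonneg fun j _ => hμ _) (prod_nonneg fun j _ => hμ _))
    (Nat.cast_nonneg _)

theorem tup_act_pattern (z : ι → Equiv.Perm (Fin n)) (y : Fin q → Equiv.Perm (Fin n)) (m : ℕ)
    (l : Option (Fin q × Bool)) :
    (tup (gl (Sum.elim z y)) m).act (ψ l) = embPerm ((gl y).act l) := by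
  show embPerm ((gl (Sum.elim z y)).act (ψ l)) = _
  rw [act_ψ]

open Classical in
/-- `RRG` of the block schedule as an average over patterns -/
theorem sum_RRG_world (z : ι → Equiv.Perm (Fin n)) (y : Fin q → Equiv.Perm (Fin n)) (m t0 N : ℕ)
    (BadP : (Fin N → Option (Fin q × Bool)) → Prop)
    (GB : (Fin m ↪ Fin n) → (Fin N → Option (Fin q × Bool)) → (Fin N → Equiv.Perm (Fin n)) →
      Prop) :
    ∑ x, RRG (tup (gl (Sum.elim z y)) m) (sch t0 N (Zw ι q) (Yv ι q θ)) (JJ t0 N)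
      (fun ls => BadP fun j => φ (ls (sl t0 N j)))
      (fun x ls => GB x (fun j => φ (ls (sl t0 N j))) (blk (gl (Sum.elim z y)) t0 N ls)) x =
    ∑ g : Fin N → Option (Fin q × Bool), (∏ j, lwt (Fin q) θ (g j)) *
      (if ¬ BadP g then cloG (lz0 z t0) m GB g y else 0) := by
  obtain ⟨L, hL⟩ : ∃ L : Letters (Fin n) (Option ((ι ⊕ Fin q) × Bool)), L = gl (Sum.elim z y) :=
    ⟨_, rfl⟩
  rw [← hL]
  obtain ⟨F, hF⟩ : ∃ F : (Fin N → Option ((ι ⊕ Fin q) × Bool)) → (Fin N → Equiv.Perm (Fin n)) →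
      (Fin N → Equiv.Perm (Fin n)) → ℝ, F = fun g A B =>
      if ¬ BadP (fun j => φ (g j)) then
        ((univ.filter fun x : Fin m ↪ Fin n => GB x (fun j => φ (g j)) A ∧
          GB x (fun j => φ (g j)) B ∧
          ∀ i, bw N A (fun j => L.act (g j)) (x i) = bw N B (fun j => L.act (g j)) (x i)).card : ℝ)
        else 0 := ⟨_, rfl⟩
  have h1 : ∑ x, RRG (tup L m) (sch t0 N (Zw ι q) (Yv ι q θ)) (JJ t0 N)
      (fun ls => BadP fun j => φ (ls (sl t0 N j)))
      (fun x ls => GB x (fun j => φ (ls (sl t0 N j))) (blk L t0 N ls)) x =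
      ∑ a : Fin ((t0 + 1) * N) → Option ((ι ⊕ Fin q) × Bool),
        ∑ b : Fin ((t0 + 1) * N) → Option ((ι ⊕ Fin q) × Bool),
        w2 (sch t0 N (Zw ι q) (Yv ι q θ)) (JJ t0 N) a b *
          F (fun j => a (sl t0 N j)) (blk L t0 N a) (blk L t0 N b) := by
    unfold RRG
    rw [sum_comm]
    apply sum_congr rfl
    intro a _
    rw [sum_comm]
    apply sum_congr rfl
    intro b _
    by_cases hw : w2 (sch t0 N (Zw ι q) (Yv ι q θ)) (JJ t0 N) a b = 0
    · rw [hw, zero_mul]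
      apply sum_eq_zero
      intro x _
      split_ifs <;> rfl
    have hpat : ∀ j, a (sl t0 N j) = b (sl t0 N j) := w2_pat t0 N _ _ a b hw
    have hpat' : (fun j => φ (b (sl t0 N j))) = fun j => φ (a (sl t0 N j)) := by
      funext j
      rw [hpat j]
    rw [hF]
    by_cases hB : BadP fun j => φ (a (sl t0 N j))
    · simp [hB]
    · simp only [hB, not_false_eq_true, true_and, if_true, hpat']
      rw [← sum_filter, sum_const, nsmul_eq_mul, mul_comm]
      congr 2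
      congr 1
      ext x
      simp only [mem_filter, mem_univ, true_and]
      have h2 : (pos (tup L m) _ a x = pos (tup L m) _ b x) ↔
          ∀ i, bw N (blk L t0 N a) (fun j => L.act (a (sl t0 N j))) (x i) =
            bw N (blk L t0 N b) (fun j => L.act (a (sl t0 N j))) (x i) := by
        rw [pos_eq_wd, pos_eq_wd, wd_tup, wd_tup, wd_blk L t0 N a, wd_blk L t0 N b]
        have h3 : (fun j => L.act (b (sl t0 N j))) = fun j => L.act (a (sl t0 N j)) := by
          funext j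
          rw [hpat j]
        rw [h3]
        constructor
        · intro h i
          exact congrArg (fun e : Fin m ↪ Fin n => e i) h
        · intro h
          ext i
          exact congrArg Fin.val (h i)
      rw [h2]
  rw [h1, sum_blocksG L (Zw ι q) (Yv ι q θ) t0 N F]
  rw [sum_push (ψ (ι := ι)) ψ_inj (fun _ => Yv ι q θ) (fun _ => Yv_zero)]
  apply sum_congr rfl
  intro g _
  simp only [Yv_ψ]
  congr 1
  have h2 : law L (Zw ι q) t0 = lz0 z t0 := by
    funext p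
    rw [hL, law_push (gl (Sum.elim z y)) (gl z) χ χ_inj (act_χ z y) (Zw ι q) Zw_zero]
    unfold lz0
    congr 1
    funext l
    exact Zw_χ l
  rw [h2, hF, hL]
  by_cases hB : BadP g
  · simp [hB, φψ]
  · simp only [φψ, hB, not_false_eq_true, if_true, act_ψ]
    rfl

open Classical in
/-- **the stage theorem for worlds with a path event** -/
theorem stage_worldG [Nonempty ι] (z : ι → Equiv.Perm (Fin n)) (hq : 0 < q) (h0 : 0 < θ)
    (h12 : θ ≤ 1 / 2) (m t0 N : ℕ)
    (BadP : (Fin N → Option (Fin q × Bool)) → Prop)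
    (GB : (Fin q → Equiv.Perm (Fin n)) → (Fin m ↪ Fin n) → (Fin N → Option (Fin q × Bool)) →
      (Fin N → Equiv.Perm (Fin n)) → Prop)
    {r b η δ ρ : ℝ} (t : ℕ)
    (hδ : 0 < δ) (hρ : 0 < ρ)
    (hG : ∀ (y : Fin q → Equiv.Perm (Fin n)) (v : (Fin m ↪ Fin n) → ℝ), (∀ x, 0 ≤ v x) →
      ∑ x, v x ^ 2 = 1 →
      (∀ k, ∑ l, sch t0 N (Zw ι q) (Yv ι q θ) k l *
        ∑ x, (v x - v ((tup (gl (Sum.elim z y)) m).act l x)) ^ 2 ≤
          (2 * (Fintype.card ι + q)) * (η / θ)) →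
      ∑ x, ∑ ls : Fin ((t0 + 1) * N) → Option ((ι ⊕ Fin q) × Bool) with
        ¬ GB y x (fun j => φ (ls (sl t0 N j))) (blk (gl (Sum.elim z y)) t0 N ls),
        v x ^ 2 * pw (tup (gl (Sum.elim z y)) m) ((t0 + 1) * N)
          (mets (tup (gl (Sum.elim z y)) m) (fun y => v y ^ 2) (sch t0 N (Zw ι q) (Yv ι q θ)))
          ls x ≤ 1 / 8)
    (hg : ∀ g, ¬ BadP g → ∑ y : Fin q → Equiv.Perm (Fin n), cloG (lz0 z t0) m (GB y) g y ≤
      r * Fintype.card (Fin m ↪ Fin n) * Fintype.card (Fin q → Equiv.Perm (Fin n)))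
    (hb : ∑ g : Fin N → Option (Fin q × Bool) with BadP g, ∏ j, lwt (Fin q) θ (g j) ≤ b)
    (hr : 0 ≤ r)
    (h1 : (Fintype.card (Option ((ι ⊕ Fin q) × Bool)) : ℝ) ^ t * Real.sqrt ρ <
      1 / 4 * Real.exp (-(4 * (4 * (1 + 1 / θ) * (((t0 + 1) * N : ℕ) *
        ((2 * (Fintype.card ι + q)) * (η / θ))) + 1))))
    (h2 : b ≤ Real.exp (-(4 * (4 * (1 + 1 / θ) * (N *
        ((2 * (Fintype.card ι + q)) * (η / θ))) + 2)))) :
    ((univ.filter fun y : Fin q → Equiv.Perm (Fin n) =>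
      (Real.exp (-(η * t)) + 4 * t * Real.exp (η * t) * (r / δ / ρ)) *
        Fintype.card (Fin m ↪ Fin n) <
      ∑ x, ret (tup (gl (Sum.elim z y)) m) (lwt (ι ⊕ Fin q) (1 / 2)) t x).card : ℝ) ≤
      δ * Fintype.card (Fin q → Equiv.Perm (Fin n)) := by
  have : Nonempty (Fin q) := ⟨⟨0, hq⟩⟩
  have : Nonempty (ι ⊕ Fin q) := ⟨Sum.inr ⟨0, hq⟩⟩
  obtain ⟨W, hW⟩ : ∃ W : ℝ, W = Fintype.card (Fin q → Equiv.Perm (Fin n)) := ⟨_, rfl⟩
  obtain ⟨C, hC⟩ : ∃ C : ℝ, C = Fintype.card (Fin m ↪ Fin n) := ⟨_, rfl⟩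
  rw [← hW, ← hC] at hg
  rw [← hW, ← hC]
  have hC0 : 0 ≤ C := by rw [hC]; positivity
  obtain ⟨RT, hRT⟩ : ∃ RT : (Fin q → Equiv.Perm (Fin n)) → ℝ, RT = fun y =>
    ∑ x, RRG (tup (gl (Sum.elim z y)) m) (sch t0 N (Zw ι q) (Yv ι q θ)) (JJ t0 N)
      (fun ls => BadP fun j => φ (ls (sl t0 N j)))
      (fun x ls => GB y x (fun j => φ (ls (sl t0 N j))) (blk (gl (Sum.elim z y)) t0 N ls)) x :=
    ⟨_, rfl⟩
  have hμ : ∀ p, 0 ≤ lz0 z t0 p := fun p =>
    law_nn (gl z) (lwt_Wt z (by norm_num) (by norm_num)) t0 p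
  have hRT1 : ∀ y, RT y = ∑ g : Fin N → Option (Fin q × Bool), (∏ j, lwt (Fin q) θ (g j)) *
      (if ¬ BadP g then cloG (lz0 z t0) m (GB y) g y else 0) := by
    intro y
    rw [hRT]
    exact sum_RRG_world z y m t0 N BadP (GB y)
  have hlw : ∀ g : Fin N → Option (Fin q × Bool), 0 ≤ ∏ j, lwt (Fin q) θ (g j) :=
    fun g => prod_nonneg fun j _ => lwt_nn _ h0.le (by linarith) _
  have hRT0 : ∀ y, 0 ≤ RT y := by
    intro y
    rw [hRT1]
    apply sum_nonneg
    intro g _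
    apply mul_nonneg (hlw g)
    by_cases hB : BadP g
    · simp [hB]
    · simp only [hB, not_false_eq_true, if_true]
      exact cloG_nn _ hμ _ _ _ _
  have hsum : ∑ y, RT y ≤ r * C * W := by
    simp only [hRT1]
    rw [sum_comm]
    calc ∑ g : Fin N → Option (Fin q × Bool), ∑ y : Fin q → Equiv.Perm (Fin n),
          (∏ j, lwt (Fin q) θ (g j)) * (if ¬ BadP g then cloG (lz0 z t0) m (GB y) g y else 0) ≤
        ∑ g : Fin N → Option (Fin q × Bool), (∏ j, lwt (Fin q) θ (g j)) * (r * C * W) := by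
          apply sum_le_sum
          intro g _
          rw [← mul_sum]
          apply mul_le_mul_of_nonneg_left _ (hlw g)
          by_cases hB : BadP g
          · simp only [hB, not_true_eq_false, if_false, sum_const_zero]
            have : 0 ≤ W := by rw [hW]; positivity
            positivity
          · simp only [hB, not_false_eq_true, if_true]
            exact hg g hB
      _ = r * C * W := by
          rw [← sum_mul, ← Fintype.prod_sum fun (_ : Fin N) o => lwt (Fin q) θ o]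
          rw [prod_eq_one fun j _ => lwt_sum (Fin q) h0.le (by linarith), one_mul]
  -- the good worlds
  have hgood : ∀ y, RT y ≤ r / δ * C →
      ∑ x, ret (tup (gl (Sum.elim z y)) m) (lwt (ι ⊕ Fin q) (1 / 2)) t x ≤
      (Real.exp (-(η * t)) + 4 * t * Real.exp (η * t) * (r / δ / ρ)) * C := by
    intro y hy
    have hS0 : Wt (gl (Sum.elim z y)) θ (lwt (ι ⊕ Fin q) (1 / 2)) := by
      have h3 := lwt_Wt (Sum.elim z y) (θ := 1 / 2) (by norm_num) (by norm_num)
      exact ⟨h3.nn, h3.one, h3.sym, le_trans h12 h3.lazy⟩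
    rw [hRT] at hy
    rw [hC] at hy ⊢
    refine stageG (tup (gl (Sum.elim z y)) m) h0 (lwt (ι ⊕ Fin q) (1 / 2))
      (Wt_tup _ m hS0) (sch t0 N (Zw ι q) (Yv ι q θ))
      (fun k => Wt_tup _ m (sch_Wt (Zv_Wt z y h12) (Yv_Wt z y hq h0 h12) t0 N k)) (by positivity)
      (fun k l hl => sch_leG hq h0 t0 N k l hl) (JJ t0 N)
      (fun ls => BadP fun j => φ (ls (sl t0 N j))) ?_
      (fun x ls => GB y x (fun j => φ (ls (sl t0 N j))) (blk (gl (Sum.elim z y)) t0 N ls))
      t hρ (fun v hv hv1 hvd => hG y v hv hv1 hvd) hy h1 ?_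
    · intro ls ls' hls
      have : (fun j => φ (ls (sl t0 N j))) = fun j => φ (ls' (sl t0 N j)) := by
        funext j
        rw [hls _ (JJ_sl t0 N j)]
      rw [this]
    · rw [card_JJ, bad_weightG z y hq h0 h12 t0 N BadP]
      exact hb.trans h2
  -- Markov
  obtain ⟨V, hV⟩ : ∃ V : Finset (Fin q → Equiv.Perm (Fin n)), V = univ.filter fun y =>
      (Real.exp (-(η * t)) + 4 * t * Real.exp (η * t) * (r / δ / ρ)) * C <
      ∑ x, ret (tup (gl (Sum.elim z y)) m) (lwt (ι ⊕ Fin q) (1 / 2)) t x := ⟨_, rfl⟩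
  rw [← hV]
  have hVmem : ∀ y ∈ V, r / δ * C < RT y := by
    intro y hy
    rw [hV, mem_filter] at hy
    by_contra hcon
    push Not at hcon
    exact absurd (hgood y hcon) (not_le.2 hy.2)
  by_cases hVe : V = ∅
  · rw [hVe, card_empty, Nat.cast_zero]
    have : 0 ≤ W := by rw [hW]; positivity
    positivity
  have hne : V.Nonempty := nonempty_iff_ne_empty.2 hVe
  have h3 : (V.card : ℝ) * (r / δ * C) < r * C * W := by
    calc (V.card : ℝ) * (r / δ * C) = ∑ _y ∈ V, r / δ * C := by rw [sum_const, nsmul_eq_mul]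
      _ < ∑ y ∈ V, RT y := sum_lt_sum_of_nonempty hne hVmem
      _ ≤ ∑ y, RT y := sum_le_univ_sum_of_nonneg hRT0
      _ ≤ r * C * W := hsum
  have h4 : 0 < r * C := by
    by_contra hcon
    push Not at hcon
    have h5 : r * C = 0 := le_antisymm hcon (mul_nonneg hr hC0)
    have h6 : r / δ * C = 0 := by
      rw [div_mul_eq_mul_div, h5, zero_div]
    rw [h5, h6, mul_zero, zero_mul] at h3
    exact lt_irrefl _ h3
  have h5 : (V.card : ℝ) * (r / δ * C) = (r * C) * (V.card / δ) := by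
    field_simp
  rw [h5] at h3
  have h6 := lt_of_mul_lt_mul_left h3 h4.le
  rw [div_lt_iff₀ hδ] at h6
  linarith

end Pool.Agent.Helper13.FS
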