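import Pool.Agent.Helper91.FS.Goals2
import Pool.Agent.Helper7.FS.N0

/-!
# Project FS, packet N0D (numerical facts)
-/

set_option autoImplicit false

namespace Pool.Agent.Helper13.FS

open Finset Nat
open Pool.Agent.Helper7.FS (bound1 choose_low bound2)

theorem goal_N0D : Pool.Agent.Helper91.FS.Goal_N0D := by
  intro m hm
  set F : ℕ := m ! with hF
  have hF1 : 1 ≤ F := Nat.factorial_pos m
  set K : ℕ := (400 * m ^ 3 * (2 * m + 3)) * 8 ^ m * F with hK
  refine ⟨(1000 * m) ^ 50 + K ^ 100 + (10 * 2 ^ m * F) ^ 10, ?_⟩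
  intro n hn s k k' E E' hs1 hs hks hk1 hks' hE hE'
  have hnA : (1000 * m) ^ 50 ≤ n := by omega
  have hnB : K ^ 100 ≤ n := by omega
  have hnC : (10 * 2 ^ m * F) ^ 10 ≤ n := by omega
  have hn1 : 1 ≤ n := le_trans (Nat.one_le_pow _ _ (by omega)) hnA
  have hB := bound1 hm hnA hs1 hs
  have hss : s ≤ s ^ 2 := by nlinarith
  have hs21 : 1 ≤ s ^ 2 := Nat.one_le_pow _ _ hs1
  have hms : m ≤ m * s ^ 2 := Nat.le_mul_of_pos_right _ hs21
  have hsm : s ^ 2 ≤ m * s ^ 2 := Nat.le_mul_of_pos_left _ hm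
  have hsmm : s * m ≤ m * s ^ 2 := by
    calc s * m = m * s := mul_comm _ _
      _ ≤ m * s ^ 2 := Nat.mul_le_mul_left _ hss
  have hB' : 1000 * (m * s ^ 2) ≤ n := by rw [← mul_assoc]; exact hB
  have hsm1 : s * (m + 1) ≤ 2 * (m * s ^ 2) := by
    rw [mul_add, mul_one]
    omega
  have hspos : 0 < 4 * s ^ 2 := by omega
  set z : ℕ := n / (4 * s ^ 2) with hz
  have hdiv : 4 * s ^ 2 * z ≤ n := Nat.mul_div_le n _
  have hdiv' : n < 4 * s ^ 2 * (z + 1) := Nat.lt_mul_div_succ n hspos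
  have hzm : m ≤ z := by
    rw [hz, Nat.le_div_iff_mul_le hspos]
    calc m * (4 * s ^ 2) = 4 * (m * s ^ 2) := by ring
      _ ≤ 1000 * (m * s ^ 2) := Nat.mul_le_mul_right _ (by norm_num)
      _ ≤ n := hB'
  have hnm : 1000 * m ≤ n := le_trans (by omega) hB'
  refine ⟨?_, ?_, ?_, hzm, ?_, ?_, ?_⟩
  · -- first claim
    set Y : ℕ := max (n * E) E' with hYd
    have hY : Y ^ 10 ≤ n ^ (10 * m + 9) := by
      rcases le_total (n * E) E' with h | h
      · rw [hYd, max_eq_right h]; exact hE'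
      · rw [hYd, max_eq_left h, mul_pow]
        calc n ^ 10 * E ^ 10 ≤ n ^ 10 * n ^ (10 * m - 1) := Nat.mul_le_mul_left _ hE
          _ = n ^ (10 * m + 9) := by
            rw [← pow_add]
            congr 1
            omega
    have h1 := bound2 hm hnB hn1 hs1 hs hY
    -- lower bound
    have hz8 : n ≤ 8 * s ^ 2 * (z + 1 - m) := by
      have e1 : z + 1 - m + m = z + 1 := by omega
      have e2 : 8 * s ^ 2 * (z + 1) = 8 * s ^ 2 * (z + 1 - m) + 8 * (m * s ^ 2) := by
        conv_lhs => rw [← e1]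
        ring
      have e3 : 2 * (4 * s ^ 2 * (z + 1)) = 8 * s ^ 2 * (z + 1) := by ring
      omega
    have h2 := choose_low (m := m) hz8
    have h3 : n ^ (m + 1) ≤ n * ((8 * s ^ 2) ^ m * (F * z.choose m)) := by
      rw [pow_succ, mul_comm]
      exact Nat.mul_le_mul_left _ h2
    have h4 := h1.trans h3
    have hpos : 0 < 8 ^ m * F * s ^ (2 * m) := by positivity
    have h5 : 400 * m ^ 3 * (2 * m + 3) * (s * Y) ≤ n * z.choose m := by
      refine Nat.le_of_mul_le_mul_left ?_ hpos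
      calc 8 ^ m * F * s ^ (2 * m) * (400 * m ^ 3 * (2 * m + 3) * (s * Y))
          = K * s ^ (2 * m + 1) * Y := by rw [hK]; ring
        _ ≤ _ := h4
        _ = 8 ^ m * F * s ^ (2 * m) * (n * z.choose m) := by
          rw [mul_pow, ← pow_mul]; ring
    have h6 : k' * n ^ 2 * E ≤ n * (s * Y) := by
      calc k' * n ^ 2 * E = n * (k' * (n * E)) := by ring
        _ ≤ n * (s * Y) :=
            Nat.mul_le_mul_left _ (Nat.mul_le_mul hks' (le_max_left _ _))
    have h7 : 2 * k * (m + 1) * n * E' ≤ 2 * (m + 1) * (n * (s * Y)) := by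
      calc 2 * k * (m + 1) * n * E' = 2 * (m + 1) * (n * (k * E')) := by ring
        _ ≤ 2 * (m + 1) * (n * (s * Y)) :=
            Nat.mul_le_mul_left _ (Nat.mul_le_mul_left _ (Nat.mul_le_mul hks (le_max_right _ _)))
    calc 400 * m ^ 3 * (k' * n ^ 2 * E + 2 * k * (m + 1) * n * E')
        ≤ 400 * m ^ 3 * (n * (s * Y) + 2 * (m + 1) * (n * (s * Y))) :=
          Nat.mul_le_mul_left _ (Nat.add_le_add h6 h7)
      _ = n * (400 * m ^ 3 * (2 * m + 3) * (s * Y)) := by ring
      _ ≤ n * (n * z.choose m) := Nat.mul_le_mul_left _ h5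
      _ = n ^ 2 * z.choose m := by ring
  · -- second claim
    have h3 : n ≤ 2 * (n + 1 - m) := by omega
    have h4 := choose_low (m := m) h3
    have h5 : 10 * 2 ^ m * F * E ≤ n ^ m := by
      have h6 : (10 * 2 ^ m * F * E) ^ 10 ≤ (n ^ m) ^ 10 := by
        calc (10 * 2 ^ m * F * E) ^ 10 = (10 * 2 ^ m * F) ^ 10 * E ^ 10 := mul_pow _ _ _
          _ ≤ n * n ^ (10 * m - 1) := Nat.mul_le_mul hnC hE
          _ = n ^ (10 * m) := by
            rw [← pow_succ']
            congr 1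
            omega
          _ = (n ^ m) ^ 10 := by rw [← pow_mul, mul_comm]
      exact le_of_not_gt fun h => absurd (Nat.pow_lt_pow_left h (by norm_num)) (not_lt.mpr h6)
    have hpos : 0 < 2 ^ m * F := by positivity
    refine Nat.le_of_mul_le_mul_left ?_ hpos
    calc 2 ^ m * F * (10 * E) = 10 * 2 ^ m * F * E := by ring
      _ ≤ n ^ m := h5
      _ ≤ 2 ^ m * (F * n.choose m) := h4
      _ = 2 ^ m * F * n.choose m := by ring
  · -- third claim
    have h1 : 4 * (s * (m + 1)) ≤ n - m := by omega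
    have h2 : n ≤ 2 * (n - (m - 1)) := by omega
    calc 2 * k * (m + 1) * n ≤ 2 * s * (m + 1) * (2 * (n - (m - 1))) :=
          Nat.mul_le_mul (Nat.mul_le_mul_right _ (Nat.mul_le_mul_left _ hks)) h2
      _ = 4 * (s * (m + 1)) * (n - (m - 1)) := by ring
      _ ≤ (n - m) * (n - (m - 1)) := Nat.mul_le_mul_right _ h1
      _ = 1 * (n - m) * (n - (m - 1)) := by rw [one_mul]
      _ ≤ k' * (n - m) * (n - (m - 1)) := Nat.mul_le_mul_right _ (Nat.mul_le_mul_right _ hk1)
  · have h1 : 64 * s ^ 2 * z = 16 * (4 * s ^ 2 * z) := by ring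
    omega
  · omega
  · omega

end Pool.Agent.Helper13.FS
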