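import Pool.Agent.Helper35.MP.Main

/-!
# The abstract stage lemma (part (2a) of route A for MP_75608d_al)

`L` letters acting on a finite set `X`, `S0` the weights of one step of the walk, `S k` (`k < M`) a
schedule, `J` the slots whose letters form the pattern. `ret L S0 t x` is the return probability after
`2 t` steps of the walk. `RR` is the probability that two paths of the schedule from `x` with the same
pattern (and independent letters in the other slots) end at the same point and the pattern is not bad.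
If the average of `RR` is small, bad patterns are rare, then the average of `ret t` is small for all
small `t`.
-/

set_option autoImplicit false
set_option linter.unusedSectionVars false

namespace Pool.Agent.Helper13.FS

open Finset Pool.Agent.Helper35.MP

variable {X Lam : Type*} [Fintype X] [DecidableEq X] [Fintype Lam] [DecidableEq Lam]

/-- one averaging step -/
noncomputable def stp (L : Letters X Lam) (S : Lam → ℝ) (u : X → ℝ) : X → ℝ :=
  fun x => ∑ l, S l * u (L.act l x)

/-- the kernel of `t` steps -/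
noncomputable def hk (L : Letters X Lam) (S : Lam → ℝ) (t : ℕ) (x : X) : X → ℝ :=
  (stp L S)^[t] (fun y => if y = x then 1 else 0)

/-- the return probability after `2 t` steps -/
noncomputable def ret (L : Letters X Lam) (S : Lam → ℝ) (t : ℕ) (x : X) : ℝ :=
  ∑ y, hk L S t x y ^ 2

section basic

variable (L : Letters X Lam) (S : Lam → ℝ) {θ : ℝ}

theorem hk_zero (x y : X) : hk L S 0 x y = if y = x then 1 else 0 := rfl

theorem hk_succ (t : ℕ) (x y : X) : hk L S (t + 1) x y = ∑ l, S l * hk L S t x (L.act l y) := by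
  unfold hk
  rw [Function.iterate_succ_apply']
  rfl

theorem hk_nn (hS : Wt L θ S) : ∀ (t : ℕ) (x y : X), 0 ≤ hk L S t x y
  | 0, x, y => by
    rw [hk_zero]
    split_ifs
    · exact zero_le_one
    · exact le_rfl
  | t + 1, x, y => by
    rw [hk_succ]
    exact sum_nonneg fun l _ => mul_nonneg (hS.nn l) (hk_nn hS t x _)

theorem hk_le (hS : Wt L θ S) : ∀ (t : ℕ) (x y : X), hk L S t x y ≤ 1
  | 0, x, y => by
    rw [hk_zero]
    split_ifs
    · exact le_rfl
    · exact zero_le_one
  | t + 1, x, y => by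
    rw [hk_succ, ← hS.one]
    exact sum_le_sum fun l _ => mul_le_of_le_one_right (hS.nn l) (hk_le hS t x _)

theorem hk_col (hS : Wt L θ S) : ∀ (t : ℕ) (y : X), ∑ x, hk L S t x y = 1
  | 0, y => by
    simp only [hk_zero]
    rw [sum_ite_eq univ y, if_pos (mem_univ _)]
  | t + 1, y => by
    simp only [hk_succ]
    rw [sum_comm, ← hS.one]
    apply sum_congr rfl
    intro l _
    rw [← mul_sum, hk_col hS t, mul_one]

theorem hk_col_sq (hS : Wt L θ S) (t : ℕ) (y : X) : ∑ x, hk L S t x y ^ 2 ≤ 1 := by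
  rw [← hk_col L S hS t y]
  apply sum_le_sum
  intro x _
  rw [pow_two]
  exact mul_le_of_le_one_right (hk_nn L S hS t x y) (hk_le L S hS t x y)

theorem ret_zero (x : X) : ret L S 0 x = 1 := by
  unfold ret
  simp only [hk_zero, ite_pow, one_pow]
  rw [sum_eq_single x]
  · simp
  · intro y _ hy
    rw [if_neg hy]
    norm_num
  · intro h
    exact absurd (mem_univ _) h

theorem ret_nn (t : ℕ) (x : X) : 0 ≤ ret L S t x := sum_nonneg fun _ _ => sq_nonneg _

/-- variance of a law with an atom -/
theorem var_le (hS : Wt L θ S) (a : Lam → ℝ) :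
    θ * ∑ l, S l * (a L.e - a l) ^ 2 ≤ ∑ l, S l * a l ^ 2 - (∑ l, S l * a l) ^ 2 := by
  have h1 : ∑ l, S l * a l ^ 2 - (∑ l, S l * a l) ^ 2 =
      ∑ l, S l * (a l - a L.e) ^ 2 - (∑ l, S l * (a l - a L.e)) ^ 2 := by
    have h2 : ∑ l, S l * (a l - a L.e) = ∑ l, S l * a l - a L.e := by
      simp only [mul_sub, sum_sub_distrib]
      rw [← sum_mul, hS.one, one_mul]
    have h3 : ∑ l, S l * (a l - a L.e) ^ 2 = ∑ l, S l * a l ^ 2 -
        2 * a L.e * ∑ l, S l * a l + a L.e ^ 2 := by
      have : ∀ l, S l * (a l - a L.e) ^ 2 = S l * a l ^ 2 - 2 * a L.e * (S l * a l) +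
        S l * a L.e ^ 2 := fun l => by ring
      rw [sum_congr rfl fun l _ => this l, sum_add_distrib, sum_sub_distrib, ← mul_sum, ← sum_mul,
        hS.one, one_mul]
    rw [h2, h3]
    ring
  rw [h1]
  have h4 : ∑ l, S l * (a L.e - a l) ^ 2 = ∑ l, S l * (a l - a L.e) ^ 2 :=
    sum_congr rfl fun l _ => by ring
  rw [h4]
  have h5 : (∑ l, S l * (a l - a L.e)) ^ 2 ≤
      (1 - S L.e) * ∑ l, S l * (a l - a L.e) ^ 2 := by
    have h6 : ∑ l, S l * (a l - a L.e) = ∑ l ∈ univ.erase L.e, S l * (a l - a L.e) := by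
      rw [← add_sum_erase univ _ (mem_univ L.e), sub_self, mul_zero, zero_add]
    have h7 : ∑ l, S l * (a l - a L.e) ^ 2 =
        ∑ l ∈ univ.erase L.e, S l * (a l - a L.e) ^ 2 := by
      rw [← add_sum_erase univ (fun l => S l * (a l - a L.e) ^ 2) (mem_univ L.e)]
      simp
    have h8 : 1 - S L.e = ∑ l ∈ univ.erase L.e, S l := by
      rw [← hS.one, ← add_sum_erase univ _ (mem_univ L.e)]
      ring
    rw [h6, h7, h8]
    have h9 := sum_mul_sq_le_sq_mul_sq (univ.erase L.e) (fun l => Real.sqrt (S l))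
      (fun l => Real.sqrt (S l) * (a l - a L.e))
    have h10 : ∀ l, Real.sqrt (S l) * (Real.sqrt (S l) * (a l - a L.e)) = S l * (a l - a L.e) := by
      intro l
      rw [← mul_assoc, Real.mul_self_sqrt (hS.nn l)]
    have h11 : ∀ l, (Real.sqrt (S l) * (a l - a L.e)) ^ 2 = S l * (a l - a L.e) ^ 2 := by
      intro l
      rw [mul_pow, Real.sq_sqrt (hS.nn l)]
    have h12 : ∀ l, Real.sqrt (S l) ^ 2 = S l := fun l => Real.sq_sqrt (hS.nn l)
    simp only [h10, h11, h12] at h9
    exact h9
  have h6 : 0 ≤ ∑ l, S l * (a l - a L.e) ^ 2 :=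
    sum_nonneg fun l _ => mul_nonneg (hS.nn l) (sq_nonneg _)
  nlinarith [mul_le_mul_of_nonneg_right hS.lazy h6]

/-- the energy is controlled by the loss of mass -/
theorem energy_le (hS : Wt L θ S) (u : X → ℝ) :
    θ * ∑ l, S l * ∑ x, (u x - u (L.act l x)) ^ 2 ≤ ∑ x, u x ^ 2 - ∑ x, stp L S u x ^ 2 := by
  have h1 : ∑ x, ∑ l, S l * u (L.act l x) ^ 2 = ∑ x, u x ^ 2 := by
    rw [sum_comm]
    calc ∑ l, ∑ x, S l * u (L.act l x) ^ 2 = ∑ l, S l * ∑ x, u x ^ 2 := by
          apply sum_congr rfl
          intro l _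
          rw [← mul_sum, Equiv.sum_comp (L.act l) (fun x => u x ^ 2)]
      _ = _ := by rw [← sum_mul, hS.one, one_mul]
  rw [← h1, ← sum_sub_distrib]
  calc θ * ∑ l, S l * ∑ x, (u x - u (L.act l x)) ^ 2 =
        ∑ x, θ * ∑ l, S l * (u x - u (L.act l x)) ^ 2 := by
        rw [← mul_sum]
        congr 1
        rw [sum_comm]
        exact sum_congr rfl fun l _ => mul_sum _ _ _
    _ ≤ _ := by
        apply sum_le_sum
        intro x _
        have h2 := var_le L S hS fun l => u (L.act l x)
        rw [L.act_e, Equiv.Perm.one_apply] at h2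
        exact h2

theorem ret_succ_le (hS : Wt L θ S) (hθ : 0 ≤ θ) (t : ℕ) (x : X) :
    ret L S (t + 1) x ≤ ret L S t x := by
  have h1 := energy_le L S hS (hk L S t x)
  have h2 : 0 ≤ θ * ∑ l, S l * ∑ y, (hk L S t x y - hk L S t x (L.act l y)) ^ 2 :=
    mul_nonneg hθ (sum_nonneg fun l _ => mul_nonneg (hS.nn l) (sum_nonneg fun y _ => sq_nonneg _))
  have h3 : ret L S (t + 1) x = ∑ y, stp L S (hk L S t x) y ^ 2 := by
    unfold ret
    apply sum_congr rfl
    intro y _
    rw [hk_succ]
    rfl
  rw [h3]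
  unfold ret
  linarith

theorem ret_anti (hS : Wt L θ S) (hθ : 0 ≤ θ) (x : X) {s t : ℕ} (h : s ≤ t) :
    ret L S t x ≤ ret L S s x :=
  antitone_nat_of_succ_le (f := fun t => ret L S t x) (fun t => ret_succ_le L S hS hθ t x) h

/-- the number of points reached in `t` steps -/
theorem card_supp : ∀ (t : ℕ) (x : X),
    (univ.filter fun y => hk L S t x y ≠ 0).card ≤ Fintype.card Lam ^ t
  | 0, x => by
    have : (univ.filter fun y => hk L S 0 x y ≠ 0) ⊆ {x} := by
      intro y hy
      rw [mem_filter, hk_zero] at hy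
      by_contra h
      rw [mem_singleton] at h
      rw [if_neg h] at hy
      exact hy.2 rfl
    calc _ ≤ ({x} : Finset X).card := card_le_card this
      _ = _ := by simp
  | t + 1, x => by
    have : (univ.filter fun y => hk L S (t + 1) x y ≠ 0) ⊆
        univ.biUnion fun l : Lam => (univ.filter fun y => hk L S t x y ≠ 0).image (L.act l).symm := by
      intro y hy
      rw [mem_filter, hk_succ] at hy
      obtain ⟨l, _, hl⟩ := exists_ne_zero_of_sum_ne_zero hy.2
      rw [mem_biUnion]
      refine ⟨l, mem_univ _, ?_⟩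
      rw [mem_image]
      refine ⟨L.act l y, ?_, ?_⟩
      · rw [mem_filter]
        exact ⟨mem_univ _, right_ne_zero_of_mul hl⟩
      · simp
    calc _ ≤ (univ.biUnion fun l : Lam =>
          (univ.filter fun y => hk L S t x y ≠ 0).image (L.act l).symm).card := card_le_card this
      _ ≤ ∑ l : Lam, ((univ.filter fun y => hk L S t x y ≠ 0).image (L.act l).symm).card :=
          card_biUnion_le
      _ ≤ ∑ _l : Lam, Fintype.card Lam ^ t :=
          sum_le_sum fun l _ => card_image_le.trans (card_supp t x)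
      _ = Fintype.card Lam ^ (t + 1) := by
          rw [sum_const, card_univ, smul_eq_mul, pow_succ, mul_comm]

end basic


section pattern

variable {M : ℕ}

/-- the weight of a pair of letter sequences with the same pattern and independent other letters -/
noncomputable def w2 (S : Fin M → Lam → ℝ) (J : Fin M → Bool) (ls ls' : Fin M → Lam) : ℝ :=
  ∏ k, if J k then (if ls k = ls' k then S k (ls k) else 0) else S k (ls k) * S k (ls' k)

/-- the probability that two paths from `x` with the same good pattern end at the same point -/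
noncomputable def RR (L : Letters X Lam) (S : Fin M → Lam → ℝ) (J : Fin M → Bool)
    (Bad : (Fin M → Lam) → Prop) [DecidablePred Bad] (x : X) : ℝ :=
  ∑ ls : Fin M → Lam, ∑ ls' : Fin M → Lam,
    if ¬ Bad ls ∧ pos L M ls x = pos L M ls' x then w2 S J ls ls' else 0

/-- the conditional weight of `a` given the pattern of `b` -/
noncomputable def cw (S : Fin M → Lam → ℝ) (J : Fin M → Bool) (a b : Fin M → Lam) : ℝ :=
  ∏ k, if J k then (if a k = b k then 1 else 0) else S k (a k)

theorem w2_eq (S : Fin M → Lam → ℝ) (J : Fin M → Bool) (a b : Fin M → Lam) :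
    w2 S J a b = (∏ k, S k (a k)) * cw S J b a := by
  unfold w2 cw
  rw [← prod_mul_distrib]
  apply prod_congr rfl
  intro k _
  by_cases hJ : J k = true
  · simp only [hJ, if_true]
    by_cases h : a k = b k
    · simp [h]
    · rw [if_neg h, if_neg fun h' => h h'.symm, mul_zero]
  · simp [hJ]

theorem w2_symm (S : Fin M → Lam → ℝ) (J : Fin M → Bool) (a b : Fin M → Lam) :
    w2 S J a b = w2 S J b a := by
  unfold w2
  apply prod_congr rfl
  intro k _
  by_cases hJ : J k = true
  · simp only [hJ, if_true]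
    by_cases h : a k = b k
    · simp [h]
    · rw [if_neg h, if_neg fun h' => h h'.symm]
  · simp only [hJ]
    rw [mul_comm]
    simp

theorem w2_nn (L : Letters X Lam) {θ : ℝ} (S : Fin M → Lam → ℝ) (hS : ∀ k, Wt L θ (S k))
    (J : Fin M → Bool) (a b : Fin M → Lam) : 0 ≤ w2 S J a b := by
  unfold w2
  apply prod_nonneg
  intro k _
  split_ifs
  · exact (hS k).nn _
  · exact le_rfl
  · exact mul_nonneg ((hS k).nn _) ((hS k).nn _)

theorem cw_sum (L : Letters X Lam) {θ : ℝ} (S : Fin M → Lam → ℝ) (hS : ∀ k, Wt L θ (S k))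
    (J : Fin M → Bool) (b : Fin M → Lam) : ∑ a, cw S J a b = 1 := by
  unfold cw
  rw [← Fintype.prod_sum fun k l => if J k then (if l = b k then (1 : ℝ) else 0) else S k l]
  apply prod_eq_one
  intro k _
  by_cases hJ : J k = true
  · simp only [hJ, if_true]
    rw [sum_ite_eq' univ (b k), if_pos (mem_univ _)]
  · simp only [hJ]
    exact (hS k).one

theorem cw_ne (S : Fin M → Lam → ℝ) (J : Fin M → Bool) (a b : Fin M → Lam) (h : cw S J a b ≠ 0)
    (c : Fin M → Lam) : cw S J c a = cw S J c b := by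
  unfold cw at h ⊢
  apply prod_congr rfl
  intro k _
  by_cases hJ : J k = true
  · have h1 := (prod_ne_zero_iff.1 h) k (mem_univ _)
    simp only [hJ, if_true] at h1 ⊢
    have h2 : a k = b k := by
      by_contra h3
      rw [if_neg h3] at h1
      exact h1 rfl
    rw [h2]
  · simp [hJ]

/-- conditional second moments dominate squared means -/
theorem sq_le_w2 (L : Letters X Lam) {θ : ℝ} (S : Fin M → Lam → ℝ) (hS : ∀ k, Wt L θ (S k))
    (J : Fin M → Bool) (g : (Fin M → Lam) → ℝ) :
    (∑ a : Fin M → Lam, (∏ k, S k (a k)) * g a) ^ 2 ≤ ∑ a, ∑ b, w2 S J a b * (g a * g b) := by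
  obtain ⟨w, hw⟩ : ∃ w : (Fin M → Lam) → ℝ, ∀ a, w a = ∏ k, S k (a k) := ⟨_, fun _ => rfl⟩
  obtain ⟨G, hG⟩ : ∃ G : (Fin M → Lam) → ℝ, ∀ a, G a = ∑ b, cw S J b a * g b := ⟨_, fun _ => rfl⟩
  have hw0 : ∀ a, 0 ≤ w a := fun a => by
    rw [hw]
    exact prod_nonneg fun k _ => (hS k).nn _
  have hw1 : ∑ a, w a = 1 := by
    rw [sum_congr rfl fun a _ => hw a]
    rw [← Fintype.prod_sum fun k l => S k l]
    exact prod_eq_one fun k _ => (hS k).one
  have hsw : ∀ a b, w a * cw S J b a = w b * cw S J a b := by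
    intro a b
    rw [hw, hw, ← w2_eq, ← w2_eq, w2_symm]
  have hF : ∑ a, w a * g a = ∑ a, w a * G a := by
    calc ∑ a, w a * g a = ∑ b, ∑ a, w b * cw S J a b * g b := by
          apply sum_congr rfl
          intro b _
          rw [← sum_mul, ← mul_sum, cw_sum L S hS J b, mul_one]
      _ = ∑ b, ∑ a, w a * cw S J b a * g b := by
          apply sum_congr rfl
          intro b _
          exact sum_congr rfl fun a _ => by rw [hsw a b]
      _ = ∑ a, ∑ b, w a * cw S J b a * g b := sum_comm
      _ = ∑ a, w a * G a := by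
          apply sum_congr rfl
          intro a _
          rw [hG, mul_sum]
          exact sum_congr rfl fun b _ => by ring
  have hG2 : ∑ a, w a * (G a * G a) = ∑ a, w a * (g a * G a) := by
    calc ∑ a, w a * (G a * G a) = ∑ a, ∑ b, w a * cw S J b a * (g b * G a) := by
          apply sum_congr rfl
          intro a _
          conv_lhs => rw [hG a, ← hG a, ← mul_assoc]
          nth_rw 1 [hG a]
          rw [mul_sum, sum_mul]
          exact sum_congr rfl fun b _ => by ring
      _ = ∑ b, ∑ a, w a * cw S J b a * (g b * G a) := sum_comm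
      _ = ∑ b, w b * (g b * G b) := by
          apply sum_congr rfl
          intro b _
          have h1 : ∀ a, w a * cw S J b a * (g b * G a) = cw S J a b * (w b * (g b * G b)) := by
            intro a
            rw [hsw a b]
            by_cases h : cw S J a b = 0
            · rw [h]
              ring
            · have h2 : G a = G b := by
                rw [hG, hG]
                exact sum_congr rfl fun c _ => by rw [cw_ne S J a b h c]
              rw [h2]
              ring
          rw [sum_congr rfl fun a _ => h1 a, ← sum_mul, cw_sum L S hS J b, one_mul]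
  have hR : ∑ a, ∑ b, w2 S J a b * (g a * g b) = ∑ a, w a * (g a * G a) := by
    apply sum_congr rfl
    intro a _
    rw [hG, mul_sum, mul_sum]
    apply sum_congr rfl
    intro b _
    rw [w2_eq, ← hw]
    ring
  rw [hR, ← hG2]
  have h3 : ∑ a : Fin M → Lam, (∏ k, S k (a k)) * g a = ∑ a, w a * G a := by
    rw [← hF]
    exact sum_congr rfl fun a _ => by rw [hw]
  rw [h3]
  obtain ⟨F, hFF⟩ : ∃ F, F = ∑ a, w a * G a := ⟨_, rfl⟩
  have h4 : 0 ≤ ∑ a, w a * (G a - F) ^ 2 := sum_nonneg fun a _ => mul_nonneg (hw0 a) (sq_nonneg _)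
  have h5 : ∑ a, w a * (G a - F) ^ 2 = ∑ a, w a * (G a * G a) - 2 * F * ∑ a, w a * G a +
      F ^ 2 * ∑ a, w a := by
    rw [mul_sum, mul_sum, ← sum_sub_distrib, ← sum_add_distrib]
    exact sum_congr rfl fun a _ => by ring
  rw [h5, hw1, ← hFF] at h4
  rw [← hFF]
  linarith

/-- a start point with small `RR` reaches a small set with small probability -/
theorem reach_le (L : Letters X Lam) {θ : ℝ} (S : Fin M → Lam → ℝ) (hS : ∀ k, Wt L θ (S k))
    (J : Fin M → Bool) (Bad : (Fin M → Lam) → Prop) [DecidablePred Bad] (x : X) {ρ : ℝ}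
    (hR : RR L S J Bad x ≤ ρ) (P : X → Prop) [DecidablePred P] :
    ∑ ls : Fin M → Lam with (¬ Bad ls ∧ P (pos L M ls x)), ∏ k, S k (ls k) ≤
      (univ.filter P).card * Real.sqrt ρ := by
  have h1 : ∀ z : X, ∑ ls : Fin M → Lam, (∏ k, S k (ls k)) *
      (if ¬ Bad ls ∧ pos L M ls x = z then (1 : ℝ) else 0) ≤ Real.sqrt ρ := by
    intro z
    apply Real.le_sqrt_of_sq_le
    refine (sq_le_w2 L S hS J fun ls => if ¬ Bad ls ∧ pos L M ls x = z then (1 : ℝ) else 0).trans
      (le_trans ?_ hR)
    unfold RR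
    apply sum_le_sum
    intro a _
    apply sum_le_sum
    intro b _
    by_cases ha : ¬ Bad a ∧ pos L M a x = z
    · by_cases hb : ¬ Bad b ∧ pos L M b x = z
      · rw [if_pos ha, if_pos hb, if_pos ⟨ha.1, ha.2.trans hb.2.symm⟩, mul_one, mul_one]
      · rw [if_neg hb, mul_zero, mul_zero]
        split_ifs
        · exact w2_nn L S hS J a b
        · exact le_rfl
    · rw [if_neg ha, zero_mul, mul_zero]
      split_ifs
      · exact w2_nn L S hS J a b
      · exact le_rfl
  have h2 : ∑ ls : Fin M → Lam with (¬ Bad ls ∧ P (pos L M ls x)), ∏ k, S k (ls k) =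
      ∑ z ∈ univ.filter P, ∑ ls : Fin M → Lam, (∏ k, S k (ls k)) *
      (if ¬ Bad ls ∧ pos L M ls x = z then (1 : ℝ) else 0) := by
    rw [sum_comm, sum_filter]
    apply sum_congr rfl
    intro ls _
    by_cases h : ¬ Bad ls ∧ P (pos L M ls x)
    · rw [if_pos h, sum_eq_single (pos L M ls x)]
      · rw [if_pos ⟨h.1, rfl⟩, mul_one]
      · intro z _ hz
        rw [if_neg fun h' => hz h'.2.symm, mul_zero]
      · intro h'
        exact absurd (mem_filter.2 ⟨mem_univ _, h.2⟩) h'
    · rw [if_neg h, sum_eq_zero]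
      intro z hz
      rw [mem_filter] at hz
      rw [if_neg, mul_zero]
      rintro ⟨h3, h4⟩
      exact h ⟨h3, h4 ▸ hz.2⟩
  rw [h2]
  calc _ ≤ ∑ _z ∈ univ.filter P, Real.sqrt ρ := sum_le_sum fun z _ => h1 z
    _ = _ := by rw [sum_const, nsmul_eq_mul]

end pattern

/-- near-invariant functions from slow decay of the return probabilities -/
theorem exists_near (L : Letters X Lam) {θ : ℝ} (hθ : 0 < θ) (S0 : Lam → ℝ) (hS0 : Wt L θ S0)
    {η : ℝ} {t : ℕ} {x : X} (h : Real.exp (-(η * t)) < ret L S0 t x) :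
    ∃ s < t, Real.exp (-(η * t)) < ret L S0 s x ∧
      θ * ∑ l, S0 l * ∑ y, (hk L S0 s x y - hk L S0 s x (L.act l y)) ^ 2 ≤ η * ret L S0 s x := by
  have h1 : ∃ s < t, Real.exp (-η) * ret L S0 s x ≤ ret L S0 (s + 1) x := by
    by_contra hcon
    push Not at hcon
    have h2 : ∀ s ≤ t, ret L S0 s x ≤ Real.exp (-(η * s)) := by
      intro s
      induction s with
      | zero => intro _; rw [ret_zero]; simp
      | succ s ih =>
        intro hs
        have h3 := ih (by omega)
        have h4 := hcon s (by omega)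
        calc ret L S0 (s + 1) x ≤ Real.exp (-η) * ret L S0 s x := h4.le
          _ ≤ Real.exp (-η) * Real.exp (-(η * s)) :=
              mul_le_mul_of_nonneg_left h3 (Real.exp_pos _).le
          _ = Real.exp (-(η * (s + 1 : ℕ))) := by
              rw [← Real.exp_add]
              congr 1
              push_cast
              ring
    exact absurd h (not_lt.2 (h2 t le_rfl))
  obtain ⟨s, hs, h2⟩ := h1
  refine ⟨s, hs, lt_of_lt_of_le h (ret_anti L S0 hS0 hθ.le x hs.le), ?_⟩
  have h3 := energy_le L S0 hS0 (hk L S0 s x)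
  have h4 : ret L S0 (s + 1) x = ∑ y, stp L S0 (hk L S0 s x) y ^ 2 := by
    unfold ret
    apply sum_congr rfl
    intro y _
    rw [hk_succ]
    rfl
  have h5 : ∑ y, hk L S0 s x y ^ 2 = ret L S0 s x := rfl
  rw [← h4, h5] at h3
  have h6 : 1 - η ≤ Real.exp (-η) := by linarith [Real.add_one_le_exp (-η)]
  have h7 := mul_le_mul_of_nonneg_right h6 (ret_nn L S0 s x)
  linarith

/-- **The abstract stage lemma.** -/
theorem stage (L : Letters X Lam) {θ : ℝ} (hθ : 0 < θ) (S0 : Lam → ℝ) (hS0 : Wt L θ S0)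
    {M : ℕ} (S : Fin M → Lam → ℝ) (hS : ∀ k, Wt L θ (S k)) {K : ℝ} (hK0 : 0 ≤ K)
    (hK : ∀ k l, l ≠ L.e → S k l ≤ K * S0 l)
    (J : Fin M → Bool) (Bad : (Fin M → Lam) → Prop) [DecidablePred Bad]
    (hBad : ∀ ls ls' : Fin M → Lam, (∀ k, J k = true → ls k = ls' k) → (Bad ls ↔ Bad ls'))
    {η : ℝ} (t : ℕ) {ρ r : ℝ} (hρ : 0 < ρ)
    (hr : ∑ x, RR L S J Bad x ≤ r * Fintype.card X)
    (h1 : (Fintype.card Lam : ℝ) ^ t * Real.sqrt ρ <
      1 / 2 * Real.exp (-(2 * (4 * (1 + 1 / θ) * (M * (K * (η / θ))) + 1))))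
    (h2 : ∑ ls : Fin M → Lam with Bad ls, ∏ k, S k (ls k) ≤
      Real.exp (-(4 * (4 * (1 + 1 / θ) * ((univ.filter fun k => J k = true).card *
        (K * (η / θ))) + 2)))) :
    ∑ x, ret L S0 t x ≤
      (Real.exp (-(η * t)) + 4 * t * Real.exp (η * t) * (r / ρ)) * Fintype.card X := by
  classical
  obtain ⟨B, hB⟩ : ∃ B : Finset X, B = univ.filter fun x => ρ < RR L S J Bad x := ⟨_, rfl⟩
  obtain ⟨V, hV⟩ : ∃ V : Finset X, V = univ.filter fun x => Real.exp (-(η * t)) < ret L S0 t x :=
    ⟨_, rfl⟩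
  have hRR0 : ∀ x, 0 ≤ RR L S J Bad x := fun x => by
    unfold RR
    apply sum_nonneg
    intro a _
    apply sum_nonneg
    intro b _
    split_ifs
    · exact w2_nn L S hS J a b
    · exact le_rfl
  -- Markov
  have hBc : (B.card : ℝ) ≤ r / ρ * Fintype.card X := by
    rw [div_mul_eq_mul_div, le_div_iff₀ hρ]
    refine le_trans ?_ hr
    calc (B.card : ℝ) * ρ = ∑ _x ∈ B, ρ := by rw [sum_const, nsmul_eq_mul]
      _ ≤ ∑ x ∈ B, RR L S J Bad x := by
          apply sum_le_sum
          intro x hx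
          rw [hB, mem_filter] at hx
          exact hx.2.le
      _ ≤ ∑ x, RR L S J Bad x := sum_le_univ_sum_of_nonneg fun x => hRR0 x
  -- the violating points
  have hVB : (V.card : ℝ) ≤ 4 * t * Real.exp (η * t) * B.card := by
    by_contra hcon
    push Not at hcon
    have hnear : ∀ x ∈ V, ∃ s < t, Real.exp (-(η * t)) < ret L S0 s x ∧
        θ * ∑ l, S0 l * ∑ y, (hk L S0 s x y - hk L S0 s x (L.act l y)) ^ 2 ≤
          η * ret L S0 s x := by
      intro x hx
      rw [hV, mem_filter] at hx
      exact exists_near L hθ S0 hS0 hx.2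
    choose! s hs using hnear
    -- a good start
    have hex : ∃ x ∈ V, ∑ y ∈ B, hk L S0 (s x) x y ^ 2 ≤ 1 / 4 * ret L S0 (s x) x := by
      by_contra hno
      push Not at hno
      have h3 : (V.card : ℝ) * (1 / 4) ≤
          ∑ x ∈ V, Real.exp (η * t) * ∑ i ∈ range t, ∑ y ∈ B, hk L S0 i x y ^ 2 := by
        calc (V.card : ℝ) * (1 / 4) = ∑ _x ∈ V, (1 / 4 : ℝ) := by rw [sum_const, nsmul_eq_mul]
          _ ≤ _ := by
            apply sum_le_sum
            intro x hx
            have h4 := (hs x hx).2.1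
            have h5 := hno x hx
            have h6 : ∑ y ∈ B, hk L S0 (s x) x y ^ 2 ≤
                ∑ i ∈ range t, ∑ y ∈ B, hk L S0 i x y ^ 2 :=
              single_le_sum (f := fun i => ∑ y ∈ B, hk L S0 i x y ^ 2)
                (fun i _ => sum_nonneg fun y _ => sq_nonneg _) (mem_range.2 (hs x hx).1)
            have h7 : Real.exp (η * t) * Real.exp (-(η * t)) = 1 := by
              rw [← Real.exp_add, add_neg_cancel, Real.exp_zero]
            have h8 : 1 / 4 * Real.exp (-(η * t)) ≤
                ∑ i ∈ range t, ∑ y ∈ B, hk L S0 i x y ^ 2 := by linarith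
            have h9 := mul_le_mul_of_nonneg_left h8 (Real.exp_pos (η * t)).le
            calc (1 / 4 : ℝ) = Real.exp (η * t) * (1 / 4 * Real.exp (-(η * t))) := by
                  rw [mul_left_comm, h7]
                  ring
              _ ≤ _ := h9
      have h4 : ∑ x ∈ V, Real.exp (η * t) * ∑ i ∈ range t, ∑ y ∈ B, hk L S0 i x y ^ 2 ≤
          Real.exp (η * t) * (t * B.card) := by
        rw [← mul_sum]
        apply mul_le_mul_of_nonneg_left _ (Real.exp_pos _).le
        calc ∑ x ∈ V, ∑ i ∈ range t, ∑ y ∈ B, hk L S0 i x y ^ 2 ≤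
              ∑ x, ∑ i ∈ range t, ∑ y ∈ B, hk L S0 i x y ^ 2 :=
              sum_le_univ_sum_of_nonneg fun x => sum_nonneg fun i _ => sum_nonneg fun y _ =>
                sq_nonneg _
          _ = ∑ i ∈ range t, ∑ y ∈ B, ∑ x, hk L S0 i x y ^ 2 := by
              rw [sum_comm]
              exact sum_congr rfl fun i _ => sum_comm
          _ ≤ ∑ _i ∈ range t, ∑ _y ∈ B, (1 : ℝ) :=
              sum_le_sum fun i _ => sum_le_sum fun y _ => hk_col_sq L S0 hS0 i y
          _ = t * B.card := by simp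
      have h5 := h3.trans h4
      nlinarith
    obtain ⟨x, hx, hxB⟩ := hex
    obtain ⟨hst, hret, hen⟩ := hs x hx
    obtain ⟨a, ha⟩ : ∃ a, a = ret L S0 (s x) x := ⟨_, rfl⟩
    rw [← ha] at hxB hret hen
    have ha0 : 0 < a := lt_trans (Real.exp_pos _) hret
    obtain ⟨v, hv⟩ : ∃ v : X → ℝ, ∀ y, v y = hk L S0 (s x) x y / Real.sqrt a := ⟨_, fun _ => rfl⟩
    have hv0 : ∀ y, 0 ≤ v y := fun y => by
      rw [hv]
      exact div_nonneg (hk_nn L S0 hS0 _ _ _) (Real.sqrt_nonneg _)
    have hvsq : ∀ y, v y ^ 2 = hk L S0 (s x) x y ^ 2 / a := fun y => by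
      rw [hv, div_pow, Real.sq_sqrt ha0.le]
    have hv1 : ∑ y, v y ^ 2 = 1 := by
      rw [sum_congr rfl fun y _ => hvsq y, ← sum_div]
      have : ∑ y, hk L S0 (s x) x y ^ 2 = a := by
        rw [ha]
        rfl
      rw [this, div_self ha0.ne']
    have hE : ∑ l, S0 l * ∑ y, (v y - v (L.act l y)) ^ 2 ≤ η / θ := by
      rw [le_div_iff₀ hθ]
      have h3 : ∑ l, S0 l * ∑ y, (v y - v (L.act l y)) ^ 2 =
          (∑ l, S0 l * ∑ y, (hk L S0 (s x) x y - hk L S0 (s x) x (L.act l y)) ^ 2) / a := by
        rw [sum_div]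
        apply sum_congr rfl
        intro l _
        rw [mul_div_assoc, sum_div]
        congr 1
        apply sum_congr rfl
        intro y _
        rw [hv, hv, ← sub_div, div_pow, Real.sq_sqrt ha0.le]
      rw [h3, div_mul_eq_mul_div, div_le_iff₀ ha0, mul_comm]
      exact hen
    have hd : ∀ k, ∑ l, S k l * ∑ y, (v y - v (L.act l y)) ^ 2 ≤ K * (η / θ) := by
      intro k
      calc ∑ l, S k l * ∑ y, (v y - v (L.act l y)) ^ 2 ≤
            ∑ l, K * (S0 l * ∑ y, (v y - v (L.act l y)) ^ 2) := by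
            apply sum_le_sum
            intro l _
            by_cases hl : l = L.e
            · rw [hl, L.act_e]
              simp
            · rw [← mul_assoc]
              exact mul_le_mul_of_nonneg_right (hK k l hl) (sum_nonneg fun y _ => sq_nonneg _)
        _ = K * ∑ l, S0 l * ∑ y, (v y - v (L.act l y)) ^ 2 := (mul_sum _ _ _).symm
        _ ≤ _ := mul_le_mul_of_nonneg_left hE hK0
    have hA : 3 / 4 ≤ ∑ y with y ∉ B, v y ^ 2 := by
      have h3 : ∑ y ∈ B, v y ^ 2 ≤ 1 / 4 := by
        rw [sum_congr rfl fun y _ => hvsq y, ← sum_div, div_le_iff₀ ha0]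
        exact hxB
      have h4 : ∑ y with y ∉ B, v y ^ 2 + ∑ y ∈ B, v y ^ 2 = 1 := by
        rw [← hv1, ← sum_filter_add_sum_filter_not univ (fun y => y ∉ B) fun y => v y ^ 2]
        congr 1
        apply sum_congr _ fun _ _ => rfl
        ext y
        simp
      linarith
    have hsumd : ∑ _k : Fin M, K * (η / θ) = M * (K * (η / θ)) := by
      rw [sum_const, card_univ, Fintype.card_fin, nsmul_eq_mul]
    have hsumJ : (∑ k : Fin M, if J k then K * (η / θ) else 0) =
        (univ.filter fun k => J k = true).card * (K * (η / θ)) := by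
      rw [← sum_filter, sum_const, nsmul_eq_mul]
    have hmet := metropolis L hθ S hS v hv0 hv1 (fun _ => K * (η / θ)) hd J Bad hBad
      (fun y => y ∉ B) hA (by rw [hsumJ]; exact h2)
    rw [hsumd] at hmet
    have hcard : ((univ.filter fun y => 0 < v y).card : ℝ) ≤ (Fintype.card Lam : ℝ) ^ t := by
      have h3 : (univ.filter fun y => 0 < v y) ⊆ univ.filter fun y => hk L S0 (s x) x y ≠ 0 := by
        intro y hy
        rw [mem_filter] at hy ⊢
        refine ⟨mem_univ _, fun h => ?_⟩
        rw [hv, h, zero_div] at hy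
        exact lt_irrefl _ hy.2
      have h4 : (univ.filter fun y => 0 < v y).card ≤ Fintype.card Lam ^ s x :=
        (card_le_card h3).trans (card_supp L S0 (s x) x)
      have hl : 1 ≤ Fintype.card Lam := Fintype.card_pos_iff.2 ⟨L.e⟩
      have h5 : Fintype.card Lam ^ s x ≤ Fintype.card Lam ^ t := Nat.pow_le_pow_right hl hst.le
      exact_mod_cast h4.trans h5
    have hup : ∑ y with y ∉ B, v y ^ 2 * ∑ ls : Fin M → Lam with
        (¬ Bad ls ∧ 0 < v (pos L M ls y)), ∏ k, S k (ls k) ≤
        (Fintype.card Lam : ℝ) ^ t * Real.sqrt ρ := by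
      calc _ ≤ ∑ y with y ∉ B, v y ^ 2 * ((Fintype.card Lam : ℝ) ^ t * Real.sqrt ρ) := by
            apply sum_le_sum
            intro y hy
            apply mul_le_mul_of_nonneg_left _ (sq_nonneg _)
            rw [mem_filter, hB, mem_filter] at hy
            have hRy : RR L S J Bad y ≤ ρ := by
              by_contra h
              push Not at h
              exact hy.2 ⟨mem_univ _, h⟩
            refine (reach_le L S hS J Bad y hRy fun z => 0 < v z).trans ?_
            exact mul_le_mul_of_nonneg_right hcard (Real.sqrt_nonneg _)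
        _ = (∑ y with y ∉ B, v y ^ 2) * ((Fintype.card Lam : ℝ) ^ t * Real.sqrt ρ) :=
            (sum_mul _ _ _).symm
        _ ≤ 1 * ((Fintype.card Lam : ℝ) ^ t * Real.sqrt ρ) := by
            apply mul_le_mul_of_nonneg_right _ (by positivity)
            rw [← hv1]
            exact sum_le_univ_sum_of_nonneg fun y => sq_nonneg _
        _ = _ := one_mul _
    linarith
  -- conclusion
  have hret1 : ∀ x, ret L S0 t x ≤ 1 := fun x => by
    rw [← ret_zero L S0 x]
    exact ret_anti L S0 hS0 hθ.le x (Nat.zero_le t)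
  calc ∑ x, ret L S0 t x = ∑ x ∈ V, ret L S0 t x + ∑ x with ¬ Real.exp (-(η * t)) <
        ret L S0 t x, ret L S0 t x := by
        rw [hV, sum_filter_add_sum_filter_not]
    _ ≤ ∑ _x ∈ V, (1 : ℝ) + ∑ x with ¬ Real.exp (-(η * t)) < ret L S0 t x,
        Real.exp (-(η * t)) := by
        apply add_le_add (sum_le_sum fun x _ => hret1 x)
        apply sum_le_sum
        intro x hx
        rw [mem_filter] at hx
        exact not_lt.1 hx.2
    _ ≤ V.card + Fintype.card X * Real.exp (-(η * t)) := by
        rw [sum_const, sum_const, nsmul_eq_mul, nsmul_eq_mul, mul_one]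
        have h3 : ((univ.filter fun x => ¬ Real.exp (-(η * t)) < ret L S0 t x).card : ℝ) ≤
            Fintype.card X := by
          exact_mod_cast card_le_univ _
        have h4 := mul_le_mul_of_nonneg_right h3 (Real.exp_pos (-(η * t))).le
        linarith
    _ ≤ 4 * t * Real.exp (η * t) * (r / ρ * Fintype.card X) +
        Fintype.card X * Real.exp (-(η * t)) := by
        have h3 : (0 : ℝ) ≤ 4 * t * Real.exp (η * t) := by positivity
        have h4 := mul_le_mul_of_nonneg_left hBc h3
        linarith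
    _ = _ := by ring

end Pool.Agent.Helper13.FS
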