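import Pool.Agent.Helper13.FS.StageA

/-!
# Words and tuples (route A for MP_75608d_al)

`wd L M ls` is the permutation given by a letter sequence, `tup L m` the action of the letters on the
injective `m`-tuples. Sums of return probabilities over the tuples are averages of falling factorials
of numbers of fixed points.
-/

set_option autoImplicit false
set_option linter.unusedSectionVars false

namespace Pool.Agent.Helper13.FS

open Finset Pool.Agent.Helper35.MP

section supp

variable {X Lam : Type*} [Fintype X] [DecidableEq X] [Fintype Lam] [DecidableEq Lam]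

/-- a lower bound for the supports of near-invariant functions gives decay of return probabilities
from every start -/
theorem ret_of_supp (L : Letters X Lam) {θ : ℝ} (hθ : 0 < θ) (S0 : Lam → ℝ) (hS0 : Wt L θ S0)
    {η : ℝ} (t : ℕ)
    (hNI : ∀ v : X → ℝ, (∀ x, 0 ≤ v x) → ∑ x, v x ^ 2 = 1 →
      θ * ∑ l, S0 l * ∑ x, (v x - v (L.act l x)) ^ 2 ≤ η →
      Fintype.card Lam ^ t < (univ.filter fun x => v x ≠ 0).card) (x : X) :
    ret L S0 t x ≤ Real.exp (-(η * t)) := by
  by_contra h
  push Not at h
  obtain ⟨s, hst, hret, hen⟩ := exists_near L hθ S0 hS0 h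
  obtain ⟨a, ha⟩ : ∃ a, a = ret L S0 s x := ⟨_, rfl⟩
  rw [← ha] at hret hen
  have ha0 : 0 < a := lt_trans (Real.exp_pos _) hret
  have h1 := hNI (fun y => hk L S0 s x y / Real.sqrt a)
    (fun y => div_nonneg (hk_nn L S0 hS0 _ _ _) (Real.sqrt_nonneg _))
    (by
      have h2 : ∀ y, (hk L S0 s x y / Real.sqrt a) ^ 2 = hk L S0 s x y ^ 2 / a := fun y => by
        rw [div_pow, Real.sq_sqrt ha0.le]
      rw [sum_congr rfl fun y _ => h2 y, ← sum_div]
      have : ∑ y, hk L S0 s x y ^ 2 = a := by
        rw [ha]
        rfl
      rw [this, div_self ha0.ne'])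
    (by
      have h3 : θ * ∑ l, S0 l * ∑ y, (hk L S0 s x y / Real.sqrt a -
          hk L S0 s x (L.act l y) / Real.sqrt a) ^ 2 =
          (θ * ∑ l, S0 l * ∑ y, (hk L S0 s x y - hk L S0 s x (L.act l y)) ^ 2) / a := by
        rw [mul_div_assoc, sum_div]
        congr 1
        apply sum_congr rfl
        intro l _
        rw [mul_div_assoc, sum_div]
        congr 1
        apply sum_congr rfl
        intro y _
        rw [← sub_div, div_pow, Real.sq_sqrt ha0.le]
      rw [h3, div_le_iff₀ ha0]
      exact hen)
  have h4 : (univ.filter fun y => hk L S0 s x y / Real.sqrt a ≠ 0) ⊆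
      univ.filter fun y => hk L S0 s x y ≠ 0 := by
    intro y hy
    rw [mem_filter] at hy ⊢
    refine ⟨mem_univ _, fun h => hy.2 ?_⟩
    rw [h, zero_div]
  have h5 := (card_le_card h4).trans (card_supp L S0 s x)
  have hl : 1 ≤ Fintype.card Lam := Fintype.card_pos_iff.2 ⟨L.e⟩
  have h6 : Fintype.card Lam ^ s ≤ Fintype.card Lam ^ t := Nat.pow_le_pow_right hl hst.le
  omega

/-- the kernel as a sum over words -/
theorem hk_words (L : Letters X Lam) (S : Lam → ℝ) : ∀ (t : ℕ) (x y : X),
    hk L S t x y = ∑ ls : Fin t → Lam, if pos L t ls y = x then ∏ k, S (ls k) else 0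
  | 0, x, y => by
    rw [hk_zero, Fintype.sum_eq_single (fun k => k.elim0)]
    · show _ = if y = x then _ else _
      simp
    · intro ls hls
      exact absurd (Subsingleton.elim _ _) hls
  | t + 1, x, y => by
    rw [hk_succ, sum_succ]
    apply sum_congr rfl
    intro l _
    rw [hk_words L S t, mul_sum]
    apply sum_congr rfl
    intro ls _
    rw [pos_cons, Fin.prod_univ_succ]
    simp only [Fin.cons_zero, Fin.cons_succ]
    split_ifs <;> simp

/-- the sum of the return probabilities counts coincidences of pairs of words -/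
theorem sum_ret (L : Letters X Lam) (S : Lam → ℝ) (t : ℕ) :
    ∑ x, ret L S t x = ∑ a : Fin t → Lam, ∑ b : Fin t → Lam,
      (∏ k, S (a k)) * (∏ k, S (b k)) *
        (univ.filter fun y => pos L t a y = pos L t b y).card := by
  have h1 : ∀ x y, hk L S t x y ^ 2 = ∑ a : Fin t → Lam, ∑ b : Fin t → Lam,
      if pos L t a y = x ∧ pos L t b y = x then (∏ k, S (a k)) * (∏ k, S (b k)) else 0 := by
    intro x y
    rw [hk_words, pow_two, sum_mul_sum]
    apply sum_congr rfl
    intro a _
    apply sum_congr rfl
    intro b _
    by_cases ha : pos L t a y = x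
    · by_cases hb : pos L t b y = x
      · simp only [ha, hb, if_true, and_self]
      · simp only [ha, hb, if_true, if_false, and_false, mul_zero]
    · simp only [ha, if_false, false_and, zero_mul]
  unfold ret
  simp only [h1]
  rw [sum_comm]
  calc ∑ y, ∑ x, ∑ a : Fin t → Lam, ∑ b : Fin t → Lam,
        (if pos L t a y = x ∧ pos L t b y = x then (∏ k, S (a k)) * (∏ k, S (b k)) else 0) =
      ∑ y, ∑ a : Fin t → Lam, ∑ b : Fin t → Lam,
        if pos L t a y = pos L t b y then (∏ k, S (a k)) * (∏ k, S (b k)) else 0 := by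
        apply sum_congr rfl
        intro y _
        rw [sum_comm]
        apply sum_congr rfl
        intro a _
        rw [sum_comm]
        apply sum_congr rfl
        intro b _
        rw [sum_eq_single (pos L t a y)]
        · by_cases h : pos L t a y = pos L t b y
          · rw [if_pos ⟨rfl, h.symm⟩, if_pos h]
          · rw [if_neg fun h' => h h'.2.symm, if_neg h]
        · intro x _ hx
          rw [if_neg fun h' => hx h'.1.symm]
        · intro h
          exact absurd (mem_univ _) h
    _ = _ := by
        rw [sum_comm]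
        apply sum_congr rfl
        intro a _
        rw [sum_comm]
        apply sum_congr rfl
        intro b _
        rw [← sum_filter, sum_const, nsmul_eq_mul, mul_comm]

/-- the sum of `RR` counts coincidences of pairs of words -/
theorem sum_RR (L : Letters X Lam) {M : ℕ} (S : Fin M → Lam → ℝ) (J : Fin M → Bool)
    (Bad : (Fin M → Lam) → Prop) [DecidablePred Bad] :
    ∑ x, RR L S J Bad x = ∑ a : Fin M → Lam, ∑ b : Fin M → Lam,
      if ¬ Bad a then w2 S J a b * (univ.filter fun y => pos L M a y = pos L M b y).card
        else 0 := by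
  unfold RR
  rw [sum_comm]
  apply sum_congr rfl
  intro a _
  rw [sum_comm]
  apply sum_congr rfl
  intro b _
  by_cases h : Bad a
  · simp [h]
  · simp only [h, not_false_eq_true, true_and, if_true]
    rw [← sum_filter, sum_const, nsmul_eq_mul, mul_comm]

end supp

section words

variable {X Lam : Type*} [Fintype X] [Fintype Lam] [DecidableEq Lam]

/-- the permutation given by a letter sequence, the first letter acts first -/
def wd (L : Letters X Lam) : (M : ℕ) → (Fin M → Lam) → Equiv.Perm X
  | 0, _ => 1
  | M + 1, ls => wd L M (fun k => ls k.succ) * L.act (ls 0)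

theorem pos_eq_wd (L : Letters X Lam) : ∀ (M : ℕ) (ls : Fin M → Lam) (x : X),
    pos L M ls x = wd L M ls x
  | 0, _, _ => rfl
  | M + 1, ls, x => by
    show pos L M (fun k => ls k.succ) (L.act (ls 0) x) = _
    rw [pos_eq_wd L M]
    rfl

/-- a permutation acting on embeddings -/
def embPerm {α β : Type*} (g : Equiv.Perm β) : Equiv.Perm (α ↪ β) where
  toFun x := x.trans g.toEmbedding
  invFun x := x.trans g.symm.toEmbedding
  left_inv x := by ext; simp
  right_inv x := by ext; simp

@[simp] theorem embPerm_apply {α β : Type*} (g : Equiv.Perm β) (x : α ↪ β) (a : α) :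
    embPerm g x a = g (x a) := rfl

theorem embPerm_one {α β : Type*} : (embPerm (1 : Equiv.Perm β) : Equiv.Perm (α ↪ β)) = 1 := by
  ext x a
  simp

theorem embPerm_mul {α β : Type*} (g h : Equiv.Perm β) :
    (embPerm (g * h) : Equiv.Perm (α ↪ β)) = embPerm g * embPerm h := by
  ext x a
  simp

theorem embPerm_inv {α β : Type*} (g : Equiv.Perm β) :
    (embPerm g⁻¹ : Equiv.Perm (α ↪ β)) = (embPerm g)⁻¹ := by
  rw [eq_inv_iff_mul_eq_one, ← embPerm_mul, inv_mul_cancel, embPerm_one]

/-- the letters acting on injective `m`-tuples -/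
def tup (L : Letters X Lam) (m : ℕ) : Letters (Fin m ↪ X) Lam where
  act l := embPerm (L.act l)
  inv := L.inv
  inv_inv := L.inv_inv
  act_inv l := by rw [L.act_inv, embPerm_inv]
  e := L.e
  act_e := by rw [L.act_e, embPerm_one]

theorem Wt_tup (L : Letters X Lam) (m : ℕ) {θ : ℝ} {S : Lam → ℝ} (h : Wt L θ S) :
    Wt (tup L m) θ S := ⟨h.nn, h.one, h.sym, h.lazy⟩

theorem wd_tup (L : Letters X Lam) (m : ℕ) : ∀ (M : ℕ) (ls : Fin M → Lam),
    wd (tup L m) M ls = embPerm (wd L M ls)
  | 0, _ => embPerm_one.symm
  | M + 1, ls => by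
    show wd (tup L m) M (fun k => ls k.succ) * embPerm (L.act (ls 0)) = _
    rw [wd_tup L m M, ← embPerm_mul]
    rfl

end words

section fixed

variable {X : Type*} [Fintype X] [DecidableEq X]

/-- number of fixed points -/
def fx (g : Equiv.Perm X) : ℕ := (univ.filter fun x => g x = x).card

/-- the tuples on which two permutations agree -/
theorem card_agree (m : ℕ) (g h : Equiv.Perm X) :
    (univ.filter fun y : Fin m ↪ X => embPerm g y = embPerm h y).card =
      (fx (h⁻¹ * g)).descFactorial m := by
  have h1 : (univ.filter fun y : Fin m ↪ X => embPerm g y = embPerm h y).card =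
      Fintype.card (Fin m ↪ {x : X // (h⁻¹ * g) x = x}) := by
    rw [← Fintype.card_coe]
    apply Fintype.card_congr
    refine
      { toFun := fun y => ⟨fun a => ⟨y.1 a, ?_⟩, ?_⟩
        invFun := fun z => ⟨z.trans (Function.Embedding.subtype _), ?_⟩
        left_inv := ?_
        right_inv := ?_ }
    · have h2 := (mem_filter.1 y.2).2
      have h3 := congrArg (fun e : Fin m ↪ X => e a) h2
      simp only [embPerm_apply] at h3
      rw [Equiv.Perm.mul_apply, h3]
      simp
    · intro a b hab
      simp only [Subtype.mk.injEq] at hab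
      exact y.1.injective hab
    · rw [mem_filter]
      refine ⟨mem_univ _, ?_⟩
      ext a
      have h2 := (z a).2
      rw [Equiv.Perm.mul_apply, Equiv.Perm.inv_eq_iff_eq] at h2
      exact h2
    · intro y
      ext a
      rfl
    · intro z
      ext a
      rfl
  rw [h1, Fintype.card_embedding_eq, Fintype.card_fin]
  congr 1
  unfold fx
  rw [Fintype.card_subtype]

end fixed

end Pool.Agent.Helper13.FS
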