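import Pool.Agent.Helper13.FS.StageB

/-!
# From return probabilities of tuples to supports of words (route A for MP_75608d_al)
-/

set_option autoImplicit false
set_option linter.unusedSectionVars false

namespace Pool.Agent.Helper13.FS

open Finset Pool.Agent.Helper35.MP

/-- falling factorials of close numbers -/
theorem descFactorial_ratio (n m A : ℕ) (h : 2 * (m + A) ≤ n) (hn : 0 < n) :
    (n.descFactorial m : ℝ) ≤ Real.exp (2 * m * A / n) * ((n - A).descFactorial m : ℝ) := by
  have hn' : (0 : ℝ) < n := by exact_mod_cast hn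
  have h1 : ∀ j, j ≤ m → (n.descFactorial j : ℝ) ≤
      Real.exp (2 * A / n) ^ j * ((n - A).descFactorial j : ℝ) := by
    intro j
    induction j with
    | zero => intro _; simp
    | succ j ih =>
      intro hj
      have h2 := ih (by omega)
      rw [Nat.descFactorial_succ, Nat.descFactorial_succ]
      push_cast
      have h3 : ((n - j : ℕ) : ℝ) ≤ Real.exp (2 * A / n) * ((n - A - j : ℕ) : ℝ) := by
        have hc1 : ((n - j : ℕ) : ℝ) = (n : ℝ) - j := by
          rw [Nat.cast_sub (by omega)]
        have hc2 : ((n - A - j : ℕ) : ℝ) = (n : ℝ) - A - j := by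
          rw [Nat.cast_sub (by omega), Nat.cast_sub (by omega)]
        rw [hc1, hc2]
        have h4 : (n : ℝ) / 2 ≤ n - A - j := by
          have : 2 * (j + A) ≤ n := by omega
          have h5 : (2 : ℝ) * (j + A) ≤ n := by exact_mod_cast this
          linarith
        have h5 : (1 : ℝ) + 2 * A / n ≤ Real.exp (2 * A / n) := by
          linarith [Real.add_one_le_exp (2 * (A : ℝ) / n)]
        have h6 : (n : ℝ) - j ≤ (1 + 2 * A / n) * (n - A - j) := by
          have h7 : (2 * (A : ℝ) / n) * (n / 2) ≤ (2 * A / n) * (n - A - j) :=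
            mul_le_mul_of_nonneg_left h4 (by positivity)
          have h8 : (2 * (A : ℝ) / n) * (n / 2) = A := by
            field_simp
          rw [h8] at h7
          linarith
        exact h6.trans (mul_le_mul_of_nonneg_right h5 (by linarith [half_pos hn']))
      calc ((n - j : ℕ) : ℝ) * (n.descFactorial j : ℝ) ≤
            (Real.exp (2 * A / n) * ((n - A - j : ℕ) : ℝ)) *
              (Real.exp (2 * A / n) ^ j * ((n - A).descFactorial j : ℝ)) :=
            mul_le_mul h3 h2 (by positivity) (by positivity)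
        _ = _ := by
            rw [pow_succ]
            ring
  have h2 := h1 m le_rfl
  rw [← Real.exp_nat_mul] at h2
  convert h2 using 3
  ring

variable {X Lam : Type*} [Fintype X] [DecidableEq X] [Fintype Lam] [DecidableEq Lam]

theorem card_tup (m : ℕ) : (Fintype.card (Fin m ↪ X) : ℝ) = ((Fintype.card X).descFactorial m : ℝ) := by
  rw [Fintype.card_embedding_eq, Fintype.card_fin]

theorem agree_tup (L : Letters X Lam) (m M M' : ℕ) (a : Fin M → Lam) (b : Fin M' → Lam) :
    (univ.filter fun y => pos (tup L m) M a y = pos (tup L m) M' b y).card =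
      (fx ((wd L M' b)⁻¹ * wd L M a)).descFactorial m := by
  rw [← card_agree]
  congr 1
  ext y
  simp only [mem_filter, mem_univ, true_and]
  rw [pos_eq_wd, pos_eq_wd, wd_tup, wd_tup]

/-- return probabilities of tuples as averages over pairs of words -/
theorem sum_ret_tup (L : Letters X Lam) (S : Lam → ℝ) (m t : ℕ) :
    ∑ x, ret (tup L m) S t x = ∑ a : Fin t → Lam, ∑ b : Fin t → Lam,
      (∏ k, S (a k)) * (∏ k, S (b k)) *
        ((fx ((wd L t b)⁻¹ * wd L t a)).descFactorial m : ℝ) := by
  rw [sum_ret]
  simp only [agree_tup]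

/-- `RR` for tuples as an average over pairs of words with the same pattern -/
theorem sum_RR_tup (L : Letters X Lam) (m : ℕ) {M : ℕ} (S : Fin M → Lam → ℝ) (J : Fin M → Bool)
    (Bad : (Fin M → Lam) → Prop) [DecidablePred Bad] :
    ∑ x, RR (tup L m) S J Bad x = ∑ a : Fin M → Lam, ∑ b : Fin M → Lam,
      if ¬ Bad a then w2 S J a b * ((fx ((wd L M b)⁻¹ * wd L M a)).descFactorial m : ℝ)
        else 0 := by
  rw [sum_RR]
  simp only [agree_tup]

/-- small average return probabilities: quotients of two independent words have large support -/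
theorem supp_small (L : Letters X Lam) {θ : ℝ} (S : Lam → ℝ) (hS : Wt L θ S) (m t A : ℕ)
    (h : 2 * (m + A) ≤ Fintype.card X) (hn : 0 < Fintype.card X) {R : ℝ}
    (hR : ∑ x, ret (tup L m) S t x ≤ R * Fintype.card (Fin m ↪ X)) :
    ∑ a : Fin t → Lam, ∑ b : Fin t → Lam,
      (if Fintype.card X ≤ fx ((wd L t b)⁻¹ * wd L t a) + A then
        (∏ k, S (a k)) * (∏ k, S (b k)) else 0) ≤
      R * Real.exp (2 * m * A / Fintype.card X) := by
  obtain ⟨n, hn'⟩ : ∃ n, n = Fintype.card X := ⟨_, rfl⟩
  rw [← hn'] at h hn ⊢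
  have hd : (0 : ℝ) < ((n - A).descFactorial m : ℝ) := by
    have : m ≤ n - A := by omega
    exact_mod_cast Nat.pos_of_ne_zero fun h0 => by
      rw [Nat.descFactorial_eq_zero_iff_lt] at h0
      omega
  have h1 : (∑ a : Fin t → Lam, ∑ b : Fin t → Lam,
      (if n ≤ fx ((wd L t b)⁻¹ * wd L t a) + A then
        (∏ k, S (a k)) * (∏ k, S (b k)) else 0)) * ((n - A).descFactorial m : ℝ) ≤
      ∑ x, ret (tup L m) S t x := by
    rw [sum_ret_tup, sum_mul]
    apply sum_le_sum
    intro a _
    rw [sum_mul]
    apply sum_le_sum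
    intro b _
    have hp : 0 ≤ (∏ k, S (a k)) * (∏ k, S (b k)) :=
      mul_nonneg (prod_nonneg fun k _ => hS.nn _) (prod_nonneg fun k _ => hS.nn _)
    split_ifs with hc
    · apply mul_le_mul_of_nonneg_left _ hp
      exact_mod_cast Nat.descFactorial_le m (by omega)
    · rw [zero_mul]
      exact mul_nonneg hp (Nat.cast_nonneg _)
  have h2 := h1.trans hR
  rw [card_tup, ← hn'] at h2
  have hR0 : 0 ≤ R := by
    by_contra hneg
    push Not at hneg
    have h3 : (0 : ℝ) < (n.descFactorial m : ℝ) :=
      lt_of_lt_of_le hd (by exact_mod_cast Nat.descFactorial_le m (by omega))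
    have h4 : R * (n.descFactorial m : ℝ) < 0 := mul_neg_of_neg_of_pos hneg h3
    have h5 : 0 ≤ ∑ x, ret (tup L m) S t x := sum_nonneg fun x _ => ret_nn _ _ _ _
    rw [card_tup, ← hn'] at hR
    linarith
  have h3 := mul_le_mul_of_nonneg_left (descFactorial_ratio n m A h hn) hR0
  have h4 := h2.trans h3
  rw [← mul_assoc] at h4
  exact le_of_mul_le_mul_right h4 hd

end Pool.Agent.Helper13.FS
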