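import Pool.Agent.Helper13.FS.StageC

/-!
# Blocks: the flat schedule and the pattern (route A for MP_75608d_al)

The schedule consists of `N` blocks; a block has `t0` letters with weights `Z` and then one letter with
weights `Y`. Pairs of letter sequences with the same `Y`-letters are pairs of products
`g_{N-1} A_{N-1} ⋯ g_0 A_0` with the same `g` and independent `A`, `B`.
-/

set_option autoImplicit false
set_option linter.unusedSectionVars false

namespace Pool.Agent.Helper13.FS

open Finset Pool.Agent.Helper35.MP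

section words

variable {X Lam : Type*} [Fintype X] [Fintype Lam] [DecidableEq Lam]

theorem wd_last (L : Letters X Lam) : ∀ (M : ℕ) (f : Fin (M + 1) → Lam),
    wd L (M + 1) f = L.act (f (Fin.last M)) * wd L M (fun k => f k.castSucc)
  | 0, f => by
    show 1 * L.act (f 0) = L.act (f (Fin.last 0)) * 1
    rw [one_mul, mul_one]
    rfl
  | M + 1, f => by
    show wd L (M + 1) (fun k => f k.succ) * L.act (f 0) = _ * (wd L M _ * L.act (f (Fin.castSucc 0)))
    rw [wd_last L M, mul_assoc]
    rfl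

theorem wd_add (L : Letters X Lam) (M : ℕ) : ∀ (M' : ℕ) (f : Fin (M + M') → Lam),
    wd L (M + M') f = wd L M' (fun k => f (Fin.natAdd M k)) * wd L M (fun k => f (Fin.castAdd M' k))
  | 0, f => by
    show _ = 1 * _
    rw [one_mul]
    rfl
  | M' + 1, f => by
    show wd L (M + M' + 1) f = _
    rw [wd_last L (M + M'), wd_add L M M', wd_last L M', mul_assoc]
    rfl

end words

section block

variable {X Lam : Type*} [Fintype X] [DecidableEq X] [Fintype Lam] [DecidableEq Lam]

/-- the law of the product of `t` letters -/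
noncomputable def law (L : Letters X Lam) (S : Lam → ℝ) (t : ℕ) (g : Equiv.Perm X) : ℝ :=
  ∑ ls : Fin t → Lam, if wd L t ls = g then ∏ k, S (ls k) else 0

theorem sum_law (L : Letters X Lam) (S : Lam → ℝ) (t : ℕ) (F : Equiv.Perm X → ℝ) :
    ∑ g, law L S t g * F g = ∑ ls : Fin t → Lam, (∏ k, S (ls k)) * F (wd L t ls) := by
  unfold law
  simp only [sum_mul]
  rw [sum_comm]
  apply sum_congr rfl
  intro ls _
  simp only [ite_mul, zero_mul]
  rw [sum_ite_eq univ (wd L t ls), if_pos (mem_univ _)]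

theorem law_nn (L : Letters X Lam) {θ : ℝ} {S : Lam → ℝ} (hS : Wt L θ S) (t : ℕ)
    (g : Equiv.Perm X) : 0 ≤ law L S t g := by
  unfold law
  apply sum_nonneg
  intro ls _
  split_ifs
  · exact prod_nonneg fun k _ => hS.nn _
  · exact le_rfl

theorem law_one (L : Letters X Lam) {θ : ℝ} {S : Lam → ℝ} (hS : Wt L θ S) (t : ℕ) :
    ∑ g, law L S t g = 1 := by
  have h := sum_law L S t fun _ => 1
  simp only [mul_one] at h
  rw [h, ← Fintype.prod_sum fun (_ : Fin t) l => S l]
  exact prod_eq_one fun k _ => hS.one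

/-- the schedule of `N` blocks -/
noncomputable def sch (t0 N : ℕ) (Z Y : Lam → ℝ) (k : Fin ((t0 + 1) * N)) : Lam → ℝ :=
  if (k : ℕ) % (t0 + 1) = t0 then Y else Z

/-- the slots of the `Y`-letters -/
def JJ (t0 N : ℕ) (k : Fin ((t0 + 1) * N)) : Bool := decide ((k : ℕ) % (t0 + 1) = t0)

/-- the slot of the `j`-th `Y`-letter -/
def sl (t0 N : ℕ) (j : Fin N) : Fin ((t0 + 1) * N) :=
  ⟨(t0 + 1) * j + t0, by
    have h1 := j.2
    calc (t0 + 1) * (j : ℕ) + t0 < (t0 + 1) * j + (t0 + 1) := by omega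
      _ = (t0 + 1) * (j + 1) := by ring
      _ ≤ (t0 + 1) * N := Nat.mul_le_mul_left _ h1⟩

theorem sl_mod (t0 N : ℕ) (j : Fin N) : ((sl t0 N j : Fin _) : ℕ) % (t0 + 1) = t0 := by
  show ((t0 + 1) * (j : ℕ) + t0) % (t0 + 1) = t0
  rw [Nat.mul_add_mod, Nat.mod_eq_of_lt (by omega)]

theorem sl_inj (t0 N : ℕ) : Function.Injective (sl t0 N) := by
  intro i j h
  have h1 := congrArg Fin.val h
  have h2 : (t0 + 1) * (i : ℕ) + t0 = (t0 + 1) * j + t0 := h1
  ext
  have h3 : (t0 + 1) * (i : ℕ) = (t0 + 1) * j := by omega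
  exact Nat.eq_of_mul_eq_mul_left (by omega) h3

theorem sch_sl (t0 N : ℕ) (Z Y : Lam → ℝ) (j : Fin N) : sch t0 N Z Y (sl t0 N j) = Y := by
  unfold sch
  rw [if_pos (sl_mod t0 N j)]

theorem JJ_sl (t0 N : ℕ) (j : Fin N) : JJ t0 N (sl t0 N j) = true := by
  unfold JJ
  rw [sl_mod t0 N j]
  simp

theorem sch_Wt {L : Letters X Lam} {θ : ℝ} {Z Y : Lam → ℝ} (hZ : Wt L θ Z) (hY : Wt L θ Y)
    (t0 N : ℕ) (k : Fin ((t0 + 1) * N)) : Wt L θ (sch t0 N Z Y k) := by
  unfold sch
  split_ifs
  · exact hY
  · exact hZ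

theorem sum_append {M M' : ℕ} (f : (Fin (M + M') → Lam) → ℝ) :
    ∑ ls, f ls = ∑ a : Fin M → Lam, ∑ b : Fin M' → Lam, f (Fin.append a b) := by
  rw [← (Fin.appendEquiv M M').sum_comp, Fintype.sum_prod_type]
  rfl

/-- the product `g_{N-1} A_{N-1} ⋯ g_0 A_0` -/
def bw {X : Type*} : (N : ℕ) → (Fin N → Equiv.Perm X) → (Fin N → Equiv.Perm X) → Equiv.Perm X
  | 0, _, _ => 1
  | N + 1, A, g => g (Fin.last N) * A (Fin.last N) *
      bw N (fun j => A j.castSucc) (fun j => g j.castSucc)

theorem w2_block (t0 N : ℕ) (Z Y : Lam → ℝ) (a b : Fin ((t0 + 1) * N) → Lam)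
    (a' b' : Fin (t0 + 1) → Lam) :
    w2 (sch t0 (N + 1) Z Y) (JJ t0 (N + 1)) (Fin.append a a') (Fin.append b b') =
      w2 (sch t0 N Z Y) (JJ t0 N) a b *
        ((if a' (Fin.last t0) = b' (Fin.last t0) then Y (a' (Fin.last t0)) else 0) *
          ((∏ k : Fin t0, Z (a' k.castSucc)) * ∏ k : Fin t0, Z (b' k.castSucc))) := by
  unfold w2
  show ∏ k : Fin ((t0 + 1) * N + (t0 + 1)), _ = _
  rw [Fin.prod_univ_add]
  congr 1
  · apply prod_congr rfl
    intro k _
    rw [Fin.append_left, Fin.append_left]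
    rfl
  · have h1 : ∀ k : Fin (t0 + 1), (((Fin.natAdd ((t0 + 1) * N) k : Fin _) : ℕ)) % (t0 + 1) = k := by
      intro k
      rw [Fin.val_natAdd, Nat.mul_add_mod, Nat.mod_eq_of_lt k.2]
    rw [Fin.prod_univ_castSucc, mul_comm]
    congr 1
    · have e1 : (Fin.append a a' : Fin ((t0 + 1) * N + (t0 + 1)) → Lam)
          (Fin.natAdd ((t0 + 1) * N) (Fin.last t0)) = a' (Fin.last t0) := Fin.append_right _ _ _
      have e2 : (Fin.append b b' : Fin ((t0 + 1) * N + (t0 + 1)) → Lam)
          (Fin.natAdd ((t0 + 1) * N) (Fin.last t0)) = b' (Fin.last t0) := Fin.append_right _ _ _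
      have h2 : JJ t0 (N + 1) (Fin.natAdd ((t0 + 1) * N) (Fin.last t0)) = true := by
        unfold JJ
        have := h1 (Fin.last t0)
        rw [Fin.val_last] at this
        exact decide_eq_true this
      have h3 : sch t0 (N + 1) Z Y (Fin.natAdd ((t0 + 1) * N) (Fin.last t0)) = Y := by
        unfold sch
        have := h1 (Fin.last t0)
        rw [Fin.val_last] at this
        exact if_pos this
      rw [h2, h3, e1, e2]
      simp only [if_true]
    · rw [← prod_mul_distrib]
      apply prod_congr rfl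
      intro k _
      have e1 : (Fin.append a a' : Fin ((t0 + 1) * N + (t0 + 1)) → Lam)
          (Fin.natAdd ((t0 + 1) * N) k.castSucc) = a' k.castSucc := Fin.append_right _ _ _
      have e2 : (Fin.append b b' : Fin ((t0 + 1) * N + (t0 + 1)) → Lam)
          (Fin.natAdd ((t0 + 1) * N) k.castSucc) = b' k.castSucc := Fin.append_right _ _ _
      have hk : (((Fin.natAdd ((t0 + 1) * N) k.castSucc : Fin _) : ℕ)) % (t0 + 1) ≠ t0 := by
        rw [h1, Fin.val_castSucc]
        exact k.2.ne
      have h2 : JJ t0 (N + 1) (Fin.natAdd ((t0 + 1) * N) k.castSucc) = false := by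
        unfold JJ
        exact decide_eq_false hk
      have h3 : sch t0 (N + 1) Z Y (Fin.natAdd ((t0 + 1) * N) k.castSucc) = Z := by
        unfold sch
        exact if_neg hk
      rw [h2, h3, e1, e2]
      simp

theorem sum_snoc' {α : Type*} [Fintype α] {M : ℕ} (f : (Fin (M + 1) → α) → ℝ) :
    ∑ ls, f ls = ∑ ls' : Fin M → α, ∑ l, f (Fin.snoc ls' l) := by
  rw [← (Fin.snocEquiv (fun _ : Fin (M + 1) => α)).sum_comp, Fintype.sum_prod_type, sum_comm]
  rfl

theorem sum_fin0 {α : Type*} [Fintype α] (f : (Fin 0 → α) → ℝ) :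
    ∑ a, f a = f (fun k => k.elim0) := by
  rw [Fintype.sum_eq_single (fun k => k.elim0)]
  intro x hx
  exact absurd (Subsingleton.elim _ _) hx

theorem wd_append (L : Letters X Lam) (t0 N : ℕ) (a : Fin ((t0 + 1) * N) → Lam) (u : Fin t0 → Lam)
    (l : Lam) :
    wd L ((t0 + 1) * (N + 1)) (Fin.append a (Fin.snoc u l : Fin (t0 + 1) → Lam)) =
      L.act l * wd L t0 u * wd L ((t0 + 1) * N) a := by
  have h := wd_add L ((t0 + 1) * N) (t0 + 1) (Fin.append a (Fin.snoc u l : Fin (t0 + 1) → Lam))
  rw [wd_last L t0] at h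
  refine h.trans ?_
  congr 1
  · congr 1
    · rw [Fin.append_right, Fin.snoc_last]
    · congr 1
      funext k
      rw [Fin.append_right, Fin.snoc_castSucc]
  · congr 1
    funext k
    rw [Fin.append_left]

theorem append_sl (t0 N : ℕ) (a : Fin ((t0 + 1) * N) → Lam) (u : Fin t0 → Lam) (l : Lam) :
    (fun j => (Fin.append a (Fin.snoc u l : Fin (t0 + 1) → Lam) :
      Fin ((t0 + 1) * N + (t0 + 1)) → Lam) (sl t0 (N + 1) j)) =
      (Fin.snoc (fun j => a (sl t0 N j)) l : Fin (N + 1) → Lam) := by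
  funext j
  refine Fin.lastCases ?_ (fun i => ?_) j
  · rw [Fin.snoc_last]
    have h1 : (sl t0 (N + 1) (Fin.last N) : Fin ((t0 + 1) * N + (t0 + 1))) =
        Fin.natAdd ((t0 + 1) * N) (Fin.last t0) := rfl
    rw [h1, Fin.append_right, Fin.snoc_last]
  · rw [Fin.snoc_castSucc]
    have h1 : (sl t0 (N + 1) i.castSucc : Fin ((t0 + 1) * N + (t0 + 1))) =
        Fin.castAdd (t0 + 1) (sl t0 N i) := rfl
    rw [h1, Fin.append_left]

/-- one block of the flat sum -/
theorem flat_succ (L : Letters X Lam) (Z Y : Lam → ℝ) (t0 N : ℕ)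
    (F : (Fin (N + 1) → Lam) → Equiv.Perm X → Equiv.Perm X → ℝ) :
    ∑ a : Fin ((t0 + 1) * (N + 1)) → Lam, ∑ b : Fin ((t0 + 1) * (N + 1)) → Lam,
      w2 (sch t0 (N + 1) Z Y) (JJ t0 (N + 1)) a b *
        F (fun j => a (sl t0 (N + 1) j)) (wd L _ a) (wd L _ b) =
    ∑ u : Fin t0 → Lam, ∑ l, ∑ v : Fin t0 → Lam, (Y l * ((∏ k, Z (u k)) * ∏ k, Z (v k))) *
      ∑ a : Fin ((t0 + 1) * N) → Lam, ∑ b : Fin ((t0 + 1) * N) → Lam,
        w2 (sch t0 N Z Y) (JJ t0 N) a b *
          F (Fin.snoc (fun j => a (sl t0 N j)) l) (L.act l * wd L t0 u * wd L _ a)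
            (L.act l * wd L t0 v * wd L _ b) := by
  have h1 : ∀ (a b : Fin ((t0 + 1) * N) → Lam) (u v : Fin t0 → Lam) (l l' : Lam),
      w2 (sch t0 (N + 1) Z Y) (JJ t0 (N + 1)) (Fin.append a (Fin.snoc u l : Fin (t0 + 1) → Lam))
        (Fin.append b (Fin.snoc v l' : Fin (t0 + 1) → Lam)) =
      w2 (sch t0 N Z Y) (JJ t0 N) a b * ((if l = l' then Y l else 0) *
        ((∏ k : Fin t0, Z (u k)) * ∏ k : Fin t0, Z (v k))) := by
    intro a b u v l l'
    rw [w2_block]
    simp only [Fin.snoc_last, Fin.snoc_castSucc]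
  calc ∑ a : Fin ((t0 + 1) * (N + 1)) → Lam, ∑ b : Fin ((t0 + 1) * (N + 1)) → Lam,
        w2 (sch t0 (N + 1) Z Y) (JJ t0 (N + 1)) a b *
          F (fun j => a (sl t0 (N + 1) j)) (wd L _ a) (wd L _ b) =
      ∑ a : Fin ((t0 + 1) * N) → Lam, ∑ u : Fin t0 → Lam, ∑ l,
        ∑ b : Fin ((t0 + 1) * N) → Lam, ∑ v : Fin t0 → Lam, ∑ l',
          (w2 (sch t0 N Z Y) (JJ t0 N) a b * ((if l = l' then Y l else 0) *
            ((∏ k : Fin t0, Z (u k)) * ∏ k : Fin t0, Z (v k)))) *
          F (Fin.snoc (fun j => a (sl t0 N j)) l) (L.act l * wd L t0 u * wd L _ a)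
            (L.act l' * wd L t0 v * wd L _ b) := by
        refine (sum_append (M := (t0 + 1) * N) (M' := t0 + 1) _).trans ?_
        apply sum_congr rfl
        intro a _
        rw [sum_snoc']
        apply sum_congr rfl
        intro u _
        apply sum_congr rfl
        intro l _
        refine (sum_append (M := (t0 + 1) * N) (M' := t0 + 1) _).trans ?_
        apply sum_congr rfl
        intro b _
        rw [sum_snoc']
        apply sum_congr rfl
        intro v _
        apply sum_congr rfl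
        intro l' _
        rw [h1]
        congr 1
        have h2 := append_sl t0 N a u l
        have h3 := wd_append L t0 N a u l
        have h4 := wd_append L t0 N b v l'
        rw [← h2, ← h3, ← h4]
    _ = ∑ a : Fin ((t0 + 1) * N) → Lam, ∑ u : Fin t0 → Lam, ∑ l,
        ∑ b : Fin ((t0 + 1) * N) → Lam, ∑ v : Fin t0 → Lam,
          (Y l * ((∏ k, Z (u k)) * ∏ k, Z (v k))) * (w2 (sch t0 N Z Y) (JJ t0 N) a b *
          F (Fin.snoc (fun j => a (sl t0 N j)) l) (L.act l * wd L t0 u * wd L _ a)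
            (L.act l * wd L t0 v * wd L _ b)) := by
        apply sum_congr rfl
        intro a _
        apply sum_congr rfl
        intro u _
        apply sum_congr rfl
        intro l _
        apply sum_congr rfl
        intro b _
        apply sum_congr rfl
        intro v _
        rw [sum_eq_single l]
        · rw [if_pos rfl]
          ring
        · intro l' _ hl
          rw [if_neg fun h => hl h.symm]
          ring
        · intro h
          exact absurd (mem_univ _) h
    _ = _ := by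
        rw [sum_comm]
        apply sum_congr rfl
        intro u _
        rw [sum_comm]
        apply sum_congr rfl
        intro l _
        rw [sum_congr rfl fun a _ => sum_comm (s := (univ : Finset (Fin ((t0 + 1) * N) → Lam)))
          (t := (univ : Finset (Fin t0 → Lam))), sum_comm]
        apply sum_congr rfl
        intro v _
        rw [mul_sum]
        apply sum_congr rfl
        intro a _
        rw [mul_sum]

/-- one block of the block sum -/
theorem bl_succ (L : Letters X Lam) (Z Y : Lam → ℝ) (t0 N : ℕ)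
    (F : (Fin (N + 1) → Lam) → Equiv.Perm X → Equiv.Perm X → ℝ) :
    ∑ g : Fin (N + 1) → Lam, (∏ j, Y (g j)) *
      ∑ A : Fin (N + 1) → Equiv.Perm X, ∑ B : Fin (N + 1) → Equiv.Perm X,
      (∏ j, law L Z t0 (A j)) * (∏ j, law L Z t0 (B j)) *
        F g (bw (N + 1) A fun j => L.act (g j)) (bw (N + 1) B fun j => L.act (g j)) =
    ∑ u : Fin t0 → Lam, ∑ l, ∑ v : Fin t0 → Lam, (Y l * ((∏ k, Z (u k)) * ∏ k, Z (v k))) *
      ∑ g : Fin N → Lam, (∏ j, Y (g j)) *
        ∑ A : Fin N → Equiv.Perm X, ∑ B : Fin N → Equiv.Perm X,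
        (∏ j, law L Z t0 (A j)) * (∏ j, law L Z t0 (B j)) *
          F (Fin.snoc g l) (L.act l * wd L t0 u * bw N A fun j => L.act (g j))
            (L.act l * wd L t0 v * bw N B fun j => L.act (g j)) := by
  have h0 : ∀ (g : Fin N → Lam) (l : Lam) (A : Fin N → Equiv.Perm X) (p : Equiv.Perm X),
      bw (N + 1) (Fin.snoc A p : Fin (N + 1) → Equiv.Perm X)
        (fun j => L.act ((Fin.snoc g l : Fin (N + 1) → Lam) j)) =
      L.act l * p * bw N A (fun j => L.act (g j)) := by
    intro g l A p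
    show L.act ((Fin.snoc g l : Fin (N + 1) → Lam) (Fin.last N)) *
      (Fin.snoc A p : Fin (N + 1) → Equiv.Perm X) (Fin.last N) * bw N _ _ = _
    simp only [Fin.snoc_last, Fin.snoc_castSucc]
  calc ∑ g : Fin (N + 1) → Lam, (∏ j, Y (g j)) *
      ∑ A : Fin (N + 1) → Equiv.Perm X, ∑ B : Fin (N + 1) → Equiv.Perm X,
      (∏ j, law L Z t0 (A j)) * (∏ j, law L Z t0 (B j)) *
        F g (bw (N + 1) A fun j => L.act (g j)) (bw (N + 1) B fun j => L.act (g j)) =
      ∑ g : Fin N → Lam, ∑ l, ((∏ j, Y (g j)) * Y l) *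
        ∑ A : Fin N → Equiv.Perm X, ∑ u : Fin t0 → Lam, (∏ k, Z (u k)) *
          ∑ B : Fin N → Equiv.Perm X, ∑ v : Fin t0 → Lam, (∏ k, Z (v k)) *
            ((∏ j, law L Z t0 (A j)) * (∏ j, law L Z t0 (B j)) *
            F (Fin.snoc g l) (L.act l * wd L t0 u * bw N A fun j => L.act (g j))
              (L.act l * wd L t0 v * bw N B fun j => L.act (g j))) := by
        rw [sum_snoc']
        apply sum_congr rfl
        intro g _
        apply sum_congr rfl
        intro l _
        congr 1
        · rw [Fin.prod_univ_castSucc]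
          simp only [Fin.snoc_last, Fin.snoc_castSucc]
        · rw [sum_snoc']
          apply sum_congr rfl
          intro A _
          rw [← sum_law L Z t0 fun p => ∑ B : Fin N → Equiv.Perm X, ∑ v : Fin t0 → Lam,
            (∏ k, Z (v k)) * ((∏ j, law L Z t0 (A j)) * (∏ j, law L Z t0 (B j)) *
            F (Fin.snoc g l) (L.act l * p * bw N A fun j => L.act (g j))
              (L.act l * wd L t0 v * bw N B fun j => L.act (g j)))]
          apply sum_congr rfl
          intro p _
          rw [sum_snoc', mul_sum]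
          apply sum_congr rfl
          intro B _
          rw [← sum_law L Z t0 fun p' => ((∏ j, law L Z t0 (A j)) * (∏ j, law L Z t0 (B j)) *
            F (Fin.snoc g l) (L.act l * p * bw N A fun j => L.act (g j))
              (L.act l * p' * bw N B fun j => L.act (g j))), mul_sum]
          apply sum_congr rfl
          intro p' _
          rw [h0, h0, Fin.prod_univ_castSucc, Fin.prod_univ_castSucc]
          simp only [Fin.snoc_last, Fin.snoc_castSucc]
          ring
    _ = ∑ g : Fin N → Lam, ∑ l, ∑ A : Fin N → Equiv.Perm X, ∑ u : Fin t0 → Lam,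
          ∑ B : Fin N → Equiv.Perm X, ∑ v : Fin t0 → Lam,
          (Y l * ((∏ k, Z (u k)) * ∏ k, Z (v k))) * ((∏ j, Y (g j)) *
            ((∏ j, law L Z t0 (A j)) * (∏ j, law L Z t0 (B j)) *
            F (Fin.snoc g l) (L.act l * wd L t0 u * bw N A fun j => L.act (g j))
              (L.act l * wd L t0 v * bw N B fun j => L.act (g j)))) := by
        apply sum_congr rfl
        intro g _
        apply sum_congr rfl
        intro l _
        rw [mul_sum]
        apply sum_congr rfl
        intro A _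
        rw [mul_sum]
        apply sum_congr rfl
        intro u _
        rw [← mul_assoc, mul_sum]
        apply sum_congr rfl
        intro B _
        rw [mul_sum]
        apply sum_congr rfl
        intro v _
        ring
    _ = ∑ u : Fin t0 → Lam, ∑ l, ∑ v : Fin t0 → Lam, ∑ g : Fin N → Lam,
          ∑ A : Fin N → Equiv.Perm X, ∑ B : Fin N → Equiv.Perm X,
          (Y l * ((∏ k, Z (u k)) * ∏ k, Z (v k))) * ((∏ j, Y (g j)) *
            ((∏ j, law L Z t0 (A j)) * (∏ j, law L Z t0 (B j)) *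
            F (Fin.snoc g l) (L.act l * wd L t0 u * bw N A fun j => L.act (g j))
              (L.act l * wd L t0 v * bw N B fun j => L.act (g j)))) := by
        rw [sum_comm]
        conv_lhs =>
          enter [2, l]
          rw [sum_congr rfl fun g _ => sum_comm]
          rw [sum_comm]
          enter [2, u]
          rw [sum_congr rfl fun g _ => sum_congr rfl fun A _ => sum_comm]
          rw [sum_congr rfl fun g _ => sum_comm]
          rw [sum_comm]
        rw [sum_comm]
    _ = _ := by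
        apply sum_congr rfl
        intro u _
        apply sum_congr rfl
        intro l _
        apply sum_congr rfl
        intro v _
        rw [mul_sum]
        apply sum_congr rfl
        intro g _
        rw [mul_sum, mul_sum]
        apply sum_congr rfl
        intro A _
        rw [mul_sum, mul_sum]

/-- the flat sum as a block sum -/
theorem sum_blocks (L : Letters X Lam) (Z Y : Lam → ℝ) (t0 : ℕ) : ∀ (N : ℕ)
    (F : (Fin N → Lam) → Equiv.Perm X → Equiv.Perm X → ℝ),
    ∑ a : Fin ((t0 + 1) * N) → Lam, ∑ b : Fin ((t0 + 1) * N) → Lam,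
      w2 (sch t0 N Z Y) (JJ t0 N) a b * F (fun j => a (sl t0 N j)) (wd L _ a) (wd L _ b) =
    ∑ g : Fin N → Lam, (∏ j, Y (g j)) *
      ∑ A : Fin N → Equiv.Perm X, ∑ B : Fin N → Equiv.Perm X,
      (∏ j, law L Z t0 (A j)) * (∏ j, law L Z t0 (B j)) *
        F g (bw N A fun j => L.act (g j)) (bw N B fun j => L.act (g j))
  | 0, F => by
    show ∑ a : Fin 0 → Lam, ∑ b : Fin 0 → Lam, _ = _
    rw [sum_fin0, sum_fin0, sum_fin0, sum_fin0, sum_fin0]
    show w2 (M := 0) _ _ _ _ * F _ 1 1 = _
    unfold w2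
    rw [Finset.univ_eq_empty (α := Fin 0), prod_empty, prod_empty, prod_empty]
    show _ = _ * (_ * _ * F _ 1 1)
    rw [one_mul, one_mul, one_mul, one_mul]
    congr 1
  | N + 1, F => by
    rw [flat_succ, bl_succ]
    apply sum_congr rfl
    intro u _
    apply sum_congr rfl
    intro l _
    apply sum_congr rfl
    intro v _
    congr 1
    exact sum_blocks L Z Y t0 N fun g P P' => F (Fin.snoc g l) (L.act l * wd L t0 u * P)
      (L.act l * wd L t0 v * P')

end block

end Pool.Agent.Helper13.FS
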