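import Pool.Agent.Helper13.FS.StageD
import Pool.Agent.Helper35.FS.CutW
import Pool.Agent.Helper4.FS.Det

/-!
# Generators, patterns and worlds (route A for MP_75608d_al)
-/

set_option autoImplicit false
set_option linter.unusedSectionVars false

namespace Pool.Agent.Helper13.FS

open Finset Pool.Agent.Helper35.MP

section gens

variable {X ι : Type*} [Fintype X] [DecidableEq X] [Fintype ι] [DecidableEq ι]

/-- the permutation of a letter -/
def gact (z : ι → Equiv.Perm X) : Option (ι × Bool) → Equiv.Perm X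
  | none => 1
  | some (i, b) => if b then z i else (z i)⁻¹

/-- the letters of a tuple of generators, with the lazy letter -/
def gl (z : ι → Equiv.Perm X) : Letters X (Option (ι × Bool)) where
  act := gact z
  inv := fun o => o.map fun l => (l.1, !l.2)
  inv_inv := by
    intro l
    rcases l with _ | ⟨i, b⟩
    · rfl
    · simp
  act_inv := by
    intro l
    rcases l with _ | ⟨i, b⟩
    · simp [gact]
    · cases b <;> simp [gact]
  e := none
  act_e := rfl

/-- the weights of one lazy step -/
noncomputable def lwt (ι : Type*) [Fintype ι] (θ : ℝ) : Option (ι × Bool) → ℝ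
  | none => θ
  | some _ => (1 - θ) / (2 * Fintype.card ι)

theorem lwt_Wt (z : ι → Equiv.Perm X) [Nonempty ι] {θ : ℝ} (h0 : 0 ≤ θ) (h1 : θ ≤ 1) :
    Wt (gl z) θ (lwt ι θ) where
  nn := by
    intro l
    rcases l with _ | l
    · exact h0
    · exact div_nonneg (by linarith) (by positivity)
  one := by
    rw [Fintype.sum_option]
    show θ + ∑ l : ι × Bool, (1 - θ) / (2 * Fintype.card ι) = 1
    rw [sum_const, card_univ, Fintype.card_prod, Fintype.card_bool, nsmul_eq_mul]
    have h2 : (Fintype.card ι : ℝ) ≠ 0 := by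
      have : 0 < Fintype.card ι := Fintype.card_pos
      positivity
    push_cast
    field_simp
    ring
  sym := by
    intro l
    rcases l with _ | l
    · rfl
    · rfl
  lazy := le_rfl

end gens

section push

variable {X Lam Lam' : Type*} [Fintype X] [DecidableEq X] [Fintype Lam] [DecidableEq Lam]
  [Fintype Lam'] [DecidableEq Lam']

theorem wd_push (L : Letters X Lam) (L' : Letters X Lam') (e : Lam' → Lam)
    (he : ∀ l, L.act (e l) = L'.act l) : ∀ (t : ℕ) (ls : Fin t → Lam'),
    wd L t (fun k => e (ls k)) = wd L' t ls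
  | 0, _ => rfl
  | t + 1, ls => by
    show wd L t (fun k => e (ls k.succ)) * L.act (e (ls 0)) = wd L' t _ * L'.act (ls 0)
    rw [wd_push L L' e he t, he]

theorem sum_push {t : ℕ} (e : Lam' → Lam) (hinj : Function.Injective e) (S : Fin t → Lam → ℝ)
    (h0 : ∀ k l, l ∉ Set.range e → S k l = 0) (F : (Fin t → Lam) → ℝ) :
    ∑ ls : Fin t → Lam, (∏ k, S k (ls k)) * F ls =
      ∑ ls : Fin t → Lam', (∏ k, S k (e (ls k))) * F (fun k => e (ls k)) := by
  symm
  apply Fintype.sum_of_injective (fun (ls : Fin t → Lam') (k : Fin t) => e (ls k))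
  · intro a b h
    funext k
    exact hinj (congrFun h k)
  · intro ls hls
    have h1 : ∃ k, ls k ∉ Set.range e := by
      by_contra hno
      push Not at hno
      apply hls
      choose f hf using hno
      exact ⟨f, funext hf⟩
    obtain ⟨k, hk⟩ := h1
    rw [prod_eq_zero (mem_univ k) (h0 k _ hk), zero_mul]
  · intro ls
    rfl

theorem law_push (L : Letters X Lam) (L' : Letters X Lam') (e : Lam' → Lam)
    (hinj : Function.Injective e) (he : ∀ l, L.act (e l) = L'.act l) (S : Lam → ℝ)
    (h0 : ∀ l, l ∉ Set.range e → S l = 0) (t : ℕ) (g : Equiv.Perm X) :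
    law L S t g = law L' (fun l => S (e l)) t g := by
  unfold law
  have h1 := sum_push (t := t) e hinj (fun _ => S) (fun _ => h0)
    (fun ls => if wd L t ls = g then 1 else 0)
  simp only [mul_ite, mul_one, mul_zero] at h1
  rw [h1]
  apply sum_congr rfl
  intro ls _
  rw [wd_push L L' e he]

end push

section world

open Pool.Agent.Helper35.FS

variable {n q : ℕ}

/-- the pattern letters among all letters -/
def ψ {ι : Type*} {q : ℕ} (o : Option (Fin q × Bool)) : Option ((ι ⊕ Fin q) × Bool) :=
  o.map fun l => (Sum.inr l.1, l.2)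

/-- the old letters among all letters -/
def χ {ι : Type*} {q : ℕ} (o : Option (ι × Bool)) : Option ((ι ⊕ Fin q) × Bool) :=
  o.map fun l => (Sum.inl l.1, l.2)

/-- the pattern letter of a letter -/
def φ {ι : Type*} {q : ℕ} : Option ((ι ⊕ Fin q) × Bool) → Option (Fin q × Bool)
  | none => none
  | some (Sum.inl _, _) => none
  | some (Sum.inr c, b) => some (c, b)

theorem φψ {ι : Type*} (o : Option (Fin q × Bool)) : φ (ψ (ι := ι) o) = o := by
  rcases o with _ | ⟨c, b⟩ <;> rfl

theorem ψ_inj {ι : Type*} : Function.Injective (ψ (ι := ι) (q := q)) := by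
  intro a b h
  rw [← φψ (ι := ι) a, h, φψ]

theorem χ_inj {ι : Type*} : Function.Injective (χ (ι := ι) (q := q)) := by
  intro a b h
  rcases a with _ | ⟨i, b1⟩
  · rcases b with _ | ⟨j, b2⟩
    · rfl
    · cases h
  · rcases b with _ | ⟨j, b2⟩
    · cases h
    · simp only [χ, Option.map_some, Option.some.injEq, Prod.mk.injEq, Sum.inl.injEq] at h
      rw [h.1, h.2]

/-- the weights of the old letters -/
noncomputable def Zw (ι : Type*) [Fintype ι] (q : ℕ) : Option ((ι ⊕ Fin q) × Bool) → ℝ
  | none => 1 / 2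
  | some (Sum.inl _, _) => (1 - 1 / 2) / (2 * Fintype.card ι)
  | some (Sum.inr _, _) => 0

/-- the weights of the new letters -/
noncomputable def Yw (ι : Type*) (q : ℕ) : Option ((ι ⊕ Fin q) × Bool) → ℝ
  | none => 1 / 32
  | some (Sum.inl _, _) => 0
  | some (Sum.inr _, _) => (1 - 1 / 32) / (2 * q)

variable {ι : Type*} [Fintype ι] [DecidableEq ι]

theorem Zw_χ (o : Option (ι × Bool)) : Zw ι q (χ o) = lwt ι (1 / 2) o := by
  rcases o with _ | ⟨i, b⟩ <;> rfl

theorem Yw_ψ (o : Option (Fin q × Bool)) : Yw ι q (ψ o) = lwt (Fin q) (1 / 32) o := by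
  rcases o with _ | ⟨i, b⟩
  · rfl
  · show (1 - 1 / 32 : ℝ) / (2 * q) = (1 - 1 / 32) / (2 * Fintype.card (Fin q))
    rw [Fintype.card_fin]

theorem Zw_zero (l : Option ((ι ⊕ Fin q) × Bool)) (h : l ∉ Set.range (χ (ι := ι) (q := q))) :
    Zw ι q l = 0 := by
  rcases l with _ | ⟨i | c, b⟩
  · exact absurd ⟨none, rfl⟩ h
  · exact absurd ⟨some (i, b), rfl⟩ h
  · rfl

theorem Yw_zero (l : Option ((ι ⊕ Fin q) × Bool)) (h : l ∉ Set.range (ψ (ι := ι) (q := q))) :
    Yw ι q l = 0 := by
  rcases l with _ | ⟨i | c, b⟩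
  · exact absurd ⟨none, rfl⟩ h
  · rfl
  · exact absurd ⟨some (c, b), rfl⟩ h

variable {X : Type*} [Fintype X] [DecidableEq X]

theorem act_χ (z : ι → Equiv.Perm X) (y : Fin q → Equiv.Perm X) (l : Option (ι × Bool)) :
    (gl (Sum.elim z y)).act (χ l) = (gl z).act l := by
  rcases l with _ | ⟨i, b⟩ <;> rfl

theorem act_ψ (z : ι → Equiv.Perm X) (y : Fin q → Equiv.Perm X) (l : Option (Fin q × Bool)) :
    (gl (Sum.elim z y)).act (ψ l) = (gl y).act l := by
  rcases l with _ | ⟨i, b⟩ <;> rfl

theorem sum_opt {ι' : Type*} [Fintype ι'] (f : Option ((ι' ⊕ Fin q) × Bool) → ℝ) :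
    ∑ o, f o = f none + (∑ i : ι', ∑ b, f (some (Sum.inl i, b))) +
      ∑ c : Fin q, ∑ b, f (some (Sum.inr c, b)) := by
  rw [Fintype.sum_option, Fintype.sum_prod_type, Fintype.sum_sum_type, add_assoc]

theorem Zw_Wt (z : ι → Equiv.Perm X) (y : Fin q → Equiv.Perm X) [Nonempty ι] :
    Wt (gl (Sum.elim z y)) (1 / 32) (Zw ι q) where
  nn := by
    intro l
    rcases l with _ | ⟨i | c, b⟩
    · norm_num [Zw]
    · exact div_nonneg (by norm_num) (by positivity)
    · exact le_rfl
  one := by
    rw [sum_opt]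
    simp only [Zw, sum_const, card_univ, Fintype.card_bool, nsmul_eq_mul]
    have h2 : (Fintype.card ι : ℝ) ≠ 0 := by
      have : 0 < Fintype.card ι := Fintype.card_pos
      positivity
    push_cast
    field_simp
    ring
  sym := by
    intro l
    rcases l with _ | ⟨i | c, b⟩ <;> rfl
  lazy := by
    show (1 / 32 : ℝ) ≤ 1 / 2
    norm_num

theorem Yw_Wt (z : ι → Equiv.Perm X) (y : Fin q → Equiv.Perm X) (hq : 0 < q) :
    Wt (gl (Sum.elim z y)) (1 / 32) (Yw ι q) where
  nn := by
    intro l
    rcases l with _ | ⟨i | c, b⟩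
    · norm_num [Yw]
    · exact le_rfl
    · exact div_nonneg (by norm_num) (by positivity)
  one := by
    rw [sum_opt]
    simp only [Yw, sum_const, card_univ, Fintype.card_bool, nsmul_eq_mul, Fintype.card_fin]
    have h2 : (q : ℝ) ≠ 0 := by positivity
    push_cast
    field_simp
    ring
  sym := by
    intro l
    rcases l with _ | ⟨i | c, b⟩ <;> rfl
  lazy := le_rfl

end world

end Pool.Agent.Helper13.FS
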