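import Pool.Agent.Helper13.FS.StageF

/-!
# Block sums for functions of the pattern and of the blocks

As `StageD`, for functions which may depend on the pattern and on all blocks.
-/

set_option autoImplicit false
set_option linter.unusedSectionVars false

namespace Pool.Agent.Helper13.FS

open Finset Pool.Agent.Helper35.MP

section blk

variable {X Lam : Type*} [Fintype X] [DecidableEq X] [Fintype Lam] [DecidableEq Lam]

/-- the product of the letters of the `j`-th block (without its last letter) -/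
def blk (L : Letters X Lam) (t0 N : ℕ) (a : Fin ((t0 + 1) * N) → Lam) (j : Fin N) : Equiv.Perm X :=
  wd L t0 fun k => a ⟨(t0 + 1) * j + k, by
    have h1 := j.2
    have h2 := k.2
    calc (t0 + 1) * (j : ℕ) + k < (t0 + 1) * j + (t0 + 1) := by omega
      _ = (t0 + 1) * (j + 1) := by ring
      _ ≤ (t0 + 1) * N := Nat.mul_le_mul_left _ h1⟩

theorem append_blk (L : Letters X Lam) (t0 N : ℕ) (a : Fin ((t0 + 1) * N) → Lam)
    (u : Fin t0 → Lam) (l : Lam) :
    blk L t0 (N + 1) (Fin.append a (Fin.snoc u l : Fin (t0 + 1) → Lam) :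
      Fin ((t0 + 1) * N + (t0 + 1)) → Lam) =
      (Fin.snoc (blk L t0 N a) (wd L t0 u) : Fin (N + 1) → Equiv.Perm X) := by
  funext j
  refine Fin.lastCases ?_ (fun i => ?_) j
  · rw [Fin.snoc_last]
    unfold blk
    congr 1
    funext k
    have h1 : (⟨(t0 + 1) * ((Fin.last N : Fin (N + 1)) : ℕ) + k, by
        have h2 := k.2
        rw [Fin.val_last]
        omega⟩ : Fin ((t0 + 1) * N + (t0 + 1))) =
        Fin.natAdd ((t0 + 1) * N) k.castSucc := rfl
    have h2 : (Fin.append a (Fin.snoc u l : Fin (t0 + 1) → Lam) :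
        Fin ((t0 + 1) * N + (t0 + 1)) → Lam) (Fin.natAdd ((t0 + 1) * N) k.castSucc) = u k := by
      rw [Fin.append_right, Fin.snoc_castSucc]
    exact (congrArg _ h1).trans h2
  · rw [Fin.snoc_castSucc]
    unfold blk
    congr 1
    funext k
    have hk : (t0 + 1) * (i : ℕ) + k < (t0 + 1) * N := by
      have h1 := i.2
      have h2 := k.2
      calc (t0 + 1) * (i : ℕ) + k < (t0 + 1) * i + (t0 + 1) := by omega
        _ = (t0 + 1) * (i + 1) := by ring
        _ ≤ (t0 + 1) * N := Nat.mul_le_mul_left _ h1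
    have h1 : (⟨(t0 + 1) * ((i.castSucc : Fin (N + 1)) : ℕ) + k, by
        rw [Fin.val_castSucc]
        omega⟩ : Fin ((t0 + 1) * N + (t0 + 1))) =
        Fin.castAdd (t0 + 1) ⟨(t0 + 1) * (i : ℕ) + k, hk⟩ := rfl
    have h2 : (Fin.append a (Fin.snoc u l : Fin (t0 + 1) → Lam) :
        Fin ((t0 + 1) * N + (t0 + 1)) → Lam)
        (Fin.castAdd (t0 + 1) ⟨(t0 + 1) * (i : ℕ) + k, hk⟩) =
        a ⟨(t0 + 1) * (i : ℕ) + k, hk⟩ := Fin.append_left _ _ _
    exact (congrArg _ h1).trans h2

/-- a word is the product of its blocks and its pattern letters -/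
theorem wd_blk (L : Letters X Lam) (t0 : ℕ) : ∀ (N : ℕ) (a : Fin ((t0 + 1) * N) → Lam),
    wd L ((t0 + 1) * N) a = bw N (blk L t0 N a) (fun j => L.act (a (sl t0 N j)))
  | 0, _ => rfl
  | N + 1, a => by
    obtain ⟨a', u, hau⟩ : ∃ (a' : Fin ((t0 + 1) * N) → Lam) (u : Fin (t0 + 1) → Lam),
        a = (Fin.append a' u : Fin ((t0 + 1) * N + (t0 + 1)) → Lam) :=
      ⟨_, _, (Fin.append_castAdd_natAdd (m := (t0 + 1) * N) (n := t0 + 1) (f := a)).symm⟩
    obtain ⟨v, l, huv⟩ : ∃ (v : Fin t0 → Lam) (l : Lam), u = (Fin.snoc v l : Fin (t0 + 1) → Lam) :=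
      ⟨Fin.init u, u (Fin.last t0), (Fin.snoc_init_self u).symm⟩
    rw [huv] at hau
    rw [hau, append_blk L t0 N a' v l]
    have h1 := wd_append L t0 N a' v l
    rw [h1, wd_blk L t0 N a']
    show _ = L.act _ * (Fin.snoc (blk L t0 N a') (wd L t0 v) : Fin (N + 1) → Equiv.Perm X)
      (Fin.last N) * bw N _ _
    have h2 := append_sl t0 N a' v l
    have h3 : ∀ j : Fin (N + 1), (Fin.append a' (Fin.snoc v l : Fin (t0 + 1) → Lam) :
        Fin ((t0 + 1) * N + (t0 + 1)) → Lam) (sl t0 (N + 1) j) =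
        (Fin.snoc (fun j => a' (sl t0 N j)) l : Fin (N + 1) → Lam) j := fun j => congrFun h2 j
    have h4 : (fun j : Fin N => L.act ((Fin.append a' (Fin.snoc v l : Fin (t0 + 1) → Lam) :
        Fin ((t0 + 1) * N + (t0 + 1)) → Lam) (sl t0 (N + 1) j.castSucc))) =
        fun j => L.act (a' (sl t0 N j)) := by
      funext j
      rw [h3, Fin.snoc_castSucc]
    have h5 := h3 (Fin.last N)
    rw [Fin.snoc_last] at h5
    rw [h4, h5, Fin.snoc_last]
    congr 2
    funext j
    rw [Fin.snoc_castSucc]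

/-- one block of the flat sum -/
theorem flat_succG (L : Letters X Lam) (Z Y : Lam → ℝ) (t0 N : ℕ)
    (F : (Fin (N + 1) → Lam) → (Fin (N + 1) → Equiv.Perm X) → (Fin (N + 1) → Equiv.Perm X) → ℝ) :
    ∑ a : Fin ((t0 + 1) * (N + 1)) → Lam, ∑ b : Fin ((t0 + 1) * (N + 1)) → Lam,
      w2 (sch t0 (N + 1) Z Y) (JJ t0 (N + 1)) a b *
        F (fun j => a (sl t0 (N + 1) j)) (blk L t0 _ a) (blk L t0 _ b) =
    ∑ u : Fin t0 → Lam, ∑ l, ∑ v : Fin t0 → Lam, (Y l * ((∏ k, Z (u k)) * ∏ k, Z (v k))) *
      ∑ a : Fin ((t0 + 1) * N) → Lam, ∑ b : Fin ((t0 + 1) * N) → Lam,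
        w2 (sch t0 N Z Y) (JJ t0 N) a b *
          F (Fin.snoc (fun j => a (sl t0 N j)) l) (Fin.snoc (blk L t0 N a) (wd L t0 u))
            (Fin.snoc (blk L t0 N b) (wd L t0 v)) := by
  have h1 : ∀ (a b : Fin ((t0 + 1) * N) → Lam) (u v : Fin t0 → Lam) (l l' : Lam),
      w2 (sch t0 (N + 1) Z Y) (JJ t0 (N + 1)) (Fin.append a (Fin.snoc u l : Fin (t0 + 1) → Lam))
        (Fin.append b (Fin.snoc v l' : Fin (t0 + 1) → Lam)) =
      w2 (sch t0 N Z Y) (JJ t0 N) a b * ((if l = l' then Y l else 0) *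
        ((∏ k : Fin t0, Z (u k)) * ∏ k : Fin t0, Z (v k))) := by
    intro a b u v l l'
    rw [w2_block]
    simp only [Fin.snoc_last, Fin.snoc_castSucc]
  calc ∑ a : Fin ((t0 + 1) * (N + 1)) → Lam, ∑ b : Fin ((t0 + 1) * (N + 1)) → Lam,
        w2 (sch t0 (N + 1) Z Y) (JJ t0 (N + 1)) a b *
          F (fun j => a (sl t0 (N + 1) j)) (blk L t0 _ a) (blk L t0 _ b) =
      ∑ a : Fin ((t0 + 1) * N) → Lam, ∑ u : Fin t0 → Lam, ∑ l,
        ∑ b : Fin ((t0 + 1) * N) → Lam, ∑ v : Fin t0 → Lam, ∑ l',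
          (w2 (sch t0 N Z Y) (JJ t0 N) a b * ((if l = l' then Y l else 0) *
            ((∏ k : Fin t0, Z (u k)) * ∏ k : Fin t0, Z (v k)))) *
          F (Fin.snoc (fun j => a (sl t0 N j)) l) (Fin.snoc (blk L t0 N a) (wd L t0 u))
            (Fin.snoc (blk L t0 N b) (wd L t0 v)) := by
        refine (sum_append (M := (t0 + 1) * N) (M' := t0 + 1) _).trans ?_
        apply sum_congr rfl
        intro a _
        rw [sum_snoc']
        apply sum_congr rfl
        intro u _
        apply sum_congr rfl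
        intro l _
        refine (sum_append (M := (t0 + 1) * N) (M' := t0 + 1) _).trans ?_
        apply sum_congr rfl
        intro b _
        rw [sum_snoc']
        apply sum_congr rfl
        intro v _
        apply sum_congr rfl
        intro l' _
        rw [h1]
        congr 1
        have h2 := append_sl t0 N a u l
        have h3 := append_blk L t0 N a u l
        have h4 := append_blk L t0 N b v l'
        rw [← h2, ← h3, ← h4]
    _ = ∑ a : Fin ((t0 + 1) * N) → Lam, ∑ u : Fin t0 → Lam, ∑ l,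
        ∑ b : Fin ((t0 + 1) * N) → Lam, ∑ v : Fin t0 → Lam,
          (Y l * ((∏ k, Z (u k)) * ∏ k, Z (v k))) * (w2 (sch t0 N Z Y) (JJ t0 N) a b *
          F (Fin.snoc (fun j => a (sl t0 N j)) l) (Fin.snoc (blk L t0 N a) (wd L t0 u))
            (Fin.snoc (blk L t0 N b) (wd L t0 v))) := by
        apply sum_congr rfl
        intro a _
        apply sum_congr rfl
        intro u _
        apply sum_congr rfl
        intro l _
        apply sum_congr rfl
        intro b _
        apply sum_congr rfl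
        intro v _
        rw [sum_eq_single l]
        · rw [if_pos rfl]
          ring
        · intro l' _ hl
          rw [if_neg fun h => hl h.symm]
          ring
        · intro h
          exact absurd (mem_univ _) h
    _ = _ := by
        rw [sum_comm]
        apply sum_congr rfl
        intro u _
        rw [sum_comm]
        apply sum_congr rfl
        intro l _
        rw [sum_congr rfl fun a _ => sum_comm (s := (univ : Finset (Fin ((t0 + 1) * N) → Lam)))
          (t := (univ : Finset (Fin t0 → Lam))), sum_comm]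
        apply sum_congr rfl
        intro v _
        rw [mul_sum]
        apply sum_congr rfl
        intro a _
        rw [mul_sum]

/-- one block of the block sum -/
theorem bl_succG (L : Letters X Lam) (Z Y : Lam → ℝ) (t0 N : ℕ)
    (F : (Fin (N + 1) → Lam) → (Fin (N + 1) → Equiv.Perm X) → (Fin (N + 1) → Equiv.Perm X) → ℝ) :
    ∑ g : Fin (N + 1) → Lam, (∏ j, Y (g j)) *
      ∑ A : Fin (N + 1) → Equiv.Perm X, ∑ B : Fin (N + 1) → Equiv.Perm X,
      (∏ j, law L Z t0 (A j)) * (∏ j, law L Z t0 (B j)) * F g A B =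
    ∑ u : Fin t0 → Lam, ∑ l, ∑ v : Fin t0 → Lam, (Y l * ((∏ k, Z (u k)) * ∏ k, Z (v k))) *
      ∑ g : Fin N → Lam, (∏ j, Y (g j)) *
        ∑ A : Fin N → Equiv.Perm X, ∑ B : Fin N → Equiv.Perm X,
        (∏ j, law L Z t0 (A j)) * (∏ j, law L Z t0 (B j)) *
          F (Fin.snoc g l) (Fin.snoc A (wd L t0 u)) (Fin.snoc B (wd L t0 v)) := by
  calc ∑ g : Fin (N + 1) → Lam, (∏ j, Y (g j)) *
      ∑ A : Fin (N + 1) → Equiv.Perm X, ∑ B : Fin (N + 1) → Equiv.Perm X,
      (∏ j, law L Z t0 (A j)) * (∏ j, law L Z t0 (B j)) * F g A B =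
      ∑ g : Fin N → Lam, ∑ l, ((∏ j, Y (g j)) * Y l) *
        ∑ A : Fin N → Equiv.Perm X, ∑ u : Fin t0 → Lam, (∏ k, Z (u k)) *
          ∑ B : Fin N → Equiv.Perm X, ∑ v : Fin t0 → Lam, (∏ k, Z (v k)) *
            ((∏ j, law L Z t0 (A j)) * (∏ j, law L Z t0 (B j)) *
            F (Fin.snoc g l) (Fin.snoc A (wd L t0 u)) (Fin.snoc B (wd L t0 v))) := by
        rw [sum_snoc']
        apply sum_congr rfl
        intro g _
        apply sum_congr rfl
        intro l _
        congr 1
        · rw [Fin.prod_univ_castSucc]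
          simp only [Fin.snoc_last, Fin.snoc_castSucc]
        · rw [sum_snoc']
          apply sum_congr rfl
          intro A _
          rw [← sum_law L Z t0 fun p => ∑ B : Fin N → Equiv.Perm X, ∑ v : Fin t0 → Lam,
            (∏ k, Z (v k)) * ((∏ j, law L Z t0 (A j)) * (∏ j, law L Z t0 (B j)) *
            F (Fin.snoc g l) (Fin.snoc A p) (Fin.snoc B (wd L t0 v)))]
          apply sum_congr rfl
          intro p _
          rw [sum_snoc', mul_sum]
          apply sum_congr rfl
          intro B _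
          rw [← sum_law L Z t0 fun p' => ((∏ j, law L Z t0 (A j)) * (∏ j, law L Z t0 (B j)) *
            F (Fin.snoc g l) (Fin.snoc A p) (Fin.snoc B p')), mul_sum]
          apply sum_congr rfl
          intro p' _
          rw [Fin.prod_univ_castSucc, Fin.prod_univ_castSucc]
          simp only [Fin.snoc_last, Fin.snoc_castSucc]
          ring
    _ = ∑ g : Fin N → Lam, ∑ l, ∑ A : Fin N → Equiv.Perm X, ∑ u : Fin t0 → Lam,
          ∑ B : Fin N → Equiv.Perm X, ∑ v : Fin t0 → Lam,
          (Y l * ((∏ k, Z (u k)) * ∏ k, Z (v k))) * ((∏ j, Y (g j)) *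
            ((∏ j, law L Z t0 (A j)) * (∏ j, law L Z t0 (B j)) *
            F (Fin.snoc g l) (Fin.snoc A (wd L t0 u)) (Fin.snoc B (wd L t0 v)))) := by
        apply sum_congr rfl
        intro g _
        apply sum_congr rfl
        intro l _
        rw [mul_sum]
        apply sum_congr rfl
        intro A _
        rw [mul_sum]
        apply sum_congr rfl
        intro u _
        rw [← mul_assoc, mul_sum]
        apply sum_congr rfl
        intro B _
        rw [mul_sum]
        apply sum_congr rfl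
        intro v _
        ring
    _ = ∑ u : Fin t0 → Lam, ∑ l, ∑ v : Fin t0 → Lam, ∑ g : Fin N → Lam,
          ∑ A : Fin N → Equiv.Perm X, ∑ B : Fin N → Equiv.Perm X,
          (Y l * ((∏ k, Z (u k)) * ∏ k, Z (v k))) * ((∏ j, Y (g j)) *
            ((∏ j, law L Z t0 (A j)) * (∏ j, law L Z t0 (B j)) *
            F (Fin.snoc g l) (Fin.snoc A (wd L t0 u)) (Fin.snoc B (wd L t0 v)))) := by
        rw [sum_comm]
        conv_lhs =>
          enter [2, l]
          rw [sum_congr rfl fun g _ => sum_comm]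
          rw [sum_comm]
          enter [2, u]
          rw [sum_congr rfl fun g _ => sum_congr rfl fun A _ => sum_comm]
          rw [sum_congr rfl fun g _ => sum_comm]
          rw [sum_comm]
        rw [sum_comm]
    _ = _ := by
        apply sum_congr rfl
        intro u _
        apply sum_congr rfl
        intro l _
        apply sum_congr rfl
        intro v _
        rw [mul_sum]
        apply sum_congr rfl
        intro g _
        rw [mul_sum, mul_sum]
        apply sum_congr rfl
        intro A _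
        rw [mul_sum, mul_sum]

/-- the flat sum as a block sum -/
theorem sum_blocksG (L : Letters X Lam) (Z Y : Lam → ℝ) (t0 : ℕ) : ∀ (N : ℕ)
    (F : (Fin N → Lam) → (Fin N → Equiv.Perm X) → (Fin N → Equiv.Perm X) → ℝ),
    ∑ a : Fin ((t0 + 1) * N) → Lam, ∑ b : Fin ((t0 + 1) * N) → Lam,
      w2 (sch t0 N Z Y) (JJ t0 N) a b * F (fun j => a (sl t0 N j)) (blk L t0 N a) (blk L t0 N b) =
    ∑ g : Fin N → Lam, (∏ j, Y (g j)) *
      ∑ A : Fin N → Equiv.Perm X, ∑ B : Fin N → Equiv.Perm X,
      (∏ j, law L Z t0 (A j)) * (∏ j, law L Z t0 (B j)) * F g A B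
  | 0, F => by
    show ∑ a : Fin 0 → Lam, ∑ b : Fin 0 → Lam, _ = _
    rw [sum_fin0, sum_fin0, sum_fin0, sum_fin0, sum_fin0]
    show w2 (M := 0) _ _ _ _ * F _ _ _ = _
    unfold w2
    rw [Finset.univ_eq_empty (α := Fin 0), prod_empty, prod_empty, prod_empty]
    show _ = _ * (_ * _ * F _ _ _)
    rw [one_mul, one_mul, one_mul, one_mul]
    congr 1
    · funext j
      exact j.elim0
    · funext j
      exact j.elim0
  | N + 1, F => by
    rw [flat_succG, bl_succG]
    apply sum_congr rfl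
    intro u _
    apply sum_congr rfl
    intro l _
    apply sum_congr rfl
    intro v _
    congr 1
    exact sum_blocksG L Z Y t0 N fun g A B => F (Fin.snoc g l) (Fin.snoc A (wd L t0 u))
      (Fin.snoc B (wd L t0 v))

/-- sequences of positive weight have the same pattern -/
theorem w2_pat (t0 N : ℕ) (Z Y : Lam → ℝ) (a b : Fin ((t0 + 1) * N) → Lam)
    (h : w2 (sch t0 N Z Y) (JJ t0 N) a b ≠ 0) (j : Fin N) : a (sl t0 N j) = b (sl t0 N j) := by
  unfold w2 at h
  have h1 := (prod_ne_zero_iff.1 h) (sl t0 N j) (mem_univ _)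
  rw [JJ_sl] at h1
  simp only [if_true] at h1
  by_contra h2
  rw [if_neg h2] at h1
  exact h1 rfl

end blk

end Pool.Agent.Helper13.FS
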